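import Mathlib

set_option autoImplicit false

/-!
MP_2f9829_co, random graphs: the product probability on the subsets of a finite set.
-/

namespace Pool.Agent.Helper15.RG

open Finset

variable {α : Type*} [DecidableEq α]

/-- Expectation of `f` for a random subset of `E`, each element taken with probability `p`. -/
noncomputable def ex (p : ℝ) (E : Finset α) (f : Finset α → ℝ) : ℝ :=
  ∑ S ∈ E.powerset, p ^ S.card * (1 - p) ^ (E.card - S.card) * f S

/-- Binomial weights. -/
noncomputable def bt (N k : ℕ) (p : ℝ) : ℝ := (N.choose k : ℝ) * p ^ k * (1 - p) ^ (N - k)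

/-- Binomial tails. -/
noncomputable def BT (N t : ℕ) (p : ℝ) : ℝ := ∑ k ∈ (range (N + 1)).filter (fun k => t ≤ k), bt N k p

theorem ex_one (p : ℝ) (E : Finset α) : ex p E (fun _ => 1) = 1 := by
  unfold ex
  simp only [mul_one]
  rw [Finset.sum_pow_mul_eq_add_pow]
  simp

theorem ex_congr (p : ℝ) (E : Finset α) (f g : Finset α → ℝ) (h : ∀ S, S ⊆ E → f S = g S) :
    ex p E f = ex p E g := by
  unfold ex
  apply Finset.sum_congr rfl
  intro S hS
  rw [h S (Finset.mem_powerset.mp hS)]

theorem ex_mono (p : ℝ) (hp0 : 0 ≤ p) (hp1 : p ≤ 1) (E : Finset α) (f g : Finset α → ℝ)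
    (h : ∀ S, S ⊆ E → f S ≤ g S) : ex p E f ≤ ex p E g := by
  unfold ex
  apply Finset.sum_le_sum
  intro S hS
  apply mul_le_mul_of_nonneg_left (h S (Finset.mem_powerset.mp hS))
  apply mul_nonneg (pow_nonneg hp0 _) (pow_nonneg (by linarith) _)

theorem ex_add (p : ℝ) (E : Finset α) (f g : Finset α → ℝ) :
    ex p E (fun S => f S + g S) = ex p E f + ex p E g := by
  unfold ex
  rw [← Finset.sum_add_distrib]
  apply Finset.sum_congr rfl
  intro S _
  ring

theorem ex_smul (p : ℝ) (E : Finset α) (c : ℝ) (f : Finset α → ℝ) :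
    ex p E (fun S => c * f S) = c * ex p E f := by
  unfold ex
  rw [Finset.mul_sum]
  apply Finset.sum_congr rfl
  intro S _
  ring

theorem ex_sum {ι : Type*} (p : ℝ) (E : Finset α) (s : Finset ι) (f : ι → Finset α → ℝ) :
    ex p E (fun S => ∑ i ∈ s, f i S) = ∑ i ∈ s, ex p E (f i) := by
  unfold ex
  rw [Finset.sum_comm]
  apply Finset.sum_congr rfl
  intro S _
  rw [Finset.mul_sum]

theorem ex_split (p : ℝ) (E F : Finset α) (hF : F ⊆ E) (φ ψ : Finset α → ℝ) :
    ex p E (fun S => φ (S ∩ F) * ψ (S \ F)) = ex p F φ * ex p (E \ F) ψ := by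
  unfold ex
  rw [Finset.sum_mul_sum, ← Finset.sum_product']
  symm
  apply Finset.sum_bij' (fun (x : Finset α × Finset α) _ => x.1 ∪ x.2)
    (fun S _ => (S ∩ F, S \ F))
  · rintro ⟨A, B⟩ h
    simp only [Finset.mem_product, Finset.mem_powerset] at h ⊢
    exact Finset.union_subset (h.1.trans hF) (h.2.trans Finset.sdiff_subset)
  · intro S h
    simp only [Finset.mem_product, Finset.mem_powerset] at h ⊢
    exact ⟨Finset.inter_subset_right, Finset.sdiff_subset_sdiff h (Finset.Subset.refl F)⟩
  · rintro ⟨A, B⟩ h
    simp only [Finset.mem_product, Finset.mem_powerset] at h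
    have hB : Disjoint B F := Finset.disjoint_of_subset_left h.2 Finset.sdiff_disjoint
    have h1 : (A ∪ B) ∩ F = A := by
      rw [Finset.union_inter_distrib_right, Finset.inter_eq_left.mpr h.1,
        Finset.disjoint_iff_inter_eq_empty.mp hB, Finset.union_empty]
    have h2 : (A ∪ B) \ F = B := by
      rw [Finset.union_sdiff_distrib, Finset.sdiff_eq_empty_iff_subset.mpr h.1,
        Finset.empty_union, Finset.sdiff_eq_self_of_disjoint hB]
    simp only [h1, h2]
  · intro S h
    simp only
    rw [Finset.union_comm]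
    exact Finset.sdiff_union_inter S F
  · rintro ⟨A, B⟩ h
    simp only [Finset.mem_product, Finset.mem_powerset] at h
    have hB : Disjoint B F := Finset.disjoint_of_subset_left h.2 Finset.sdiff_disjoint
    have h1 : (A ∪ B) ∩ F = A := by
      rw [Finset.union_inter_distrib_right, Finset.inter_eq_left.mpr h.1,
        Finset.disjoint_iff_inter_eq_empty.mp hB, Finset.union_empty]
    have h2 : (A ∪ B) \ F = B := by
      rw [Finset.union_sdiff_distrib, Finset.sdiff_eq_empty_iff_subset.mpr h.1,
        Finset.empty_union, Finset.sdiff_eq_self_of_disjoint hB]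
    have hAB : Disjoint A B := (Finset.disjoint_of_subset_right h.1 hB).symm
    have h3 : (A ∪ B).card = A.card + B.card := Finset.card_union_of_disjoint hAB
    have h4 : A.card ≤ F.card := Finset.card_le_card h.1
    have h5 : B.card ≤ (E \ F).card := Finset.card_le_card h.2
    have h6 : E.card = F.card + (E \ F).card := by
      have := Finset.card_sdiff_add_card_eq_card hF
      omega
    have h7 : E.card - (A ∪ B).card = (F.card - A.card) + ((E \ F).card - B.card) := by omega
    simp only [h1, h2]
    rw [h7, h3, pow_add, pow_add]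
    ring

theorem ex_marg (p : ℝ) (E F : Finset α) (hF : F ⊆ E) (φ : Finset α → ℝ) :
    ex p E (fun S => φ (S ∩ F)) = ex p F φ := by
  have h := ex_split p E F hF φ (fun _ => 1)
  simp only [mul_one] at h
  rw [h, ex_one, mul_one]

theorem ex_card (p : ℝ) (F : Finset α) (g : ℕ → ℝ) :
    ex p F (fun S => g S.card) = ∑ k ∈ range (F.card + 1), bt F.card k p * g k := by
  unfold ex
  rw [Finset.sum_powerset_apply_card (fun k => p ^ k * (1 - p) ^ (F.card - k) * g k)]
  apply Finset.sum_congr rfl
  intro k _
  unfold bt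
  rw [nsmul_eq_mul]
  ring

/-- The probability that all elements of `F` are taken. -/
theorem ex_sub (p : ℝ) (E F : Finset α) (hF : F ⊆ E) :
    ex p E (fun S => if F ⊆ S then 1 else 0) = p ^ F.card := by
  have h := ex_marg p E F hF (fun T => if F ⊆ T then 1 else 0)
  have h1 : ex p E (fun S => if F ⊆ S then 1 else 0) =
      ex p E (fun S => if F ⊆ S ∩ F then 1 else 0) := by
    apply ex_congr
    intro S _
    have : F ⊆ S ∩ F ↔ F ⊆ S := by
      constructor
      · intro h; exact h.trans Finset.inter_subset_left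
      · intro h; exact Finset.subset_inter h (Finset.Subset.refl F)
    simp only [this]
  rw [h1, h]
  unfold ex
  rw [Finset.sum_eq_single_of_mem F (Finset.mem_powerset.mpr (Finset.Subset.refl F))]
  · simp
  · intro S hS hne
    have : ¬ F ⊆ S := fun h => hne (Finset.Subset.antisymm (Finset.mem_powerset.mp hS) h)
    simp [this]

end Pool.Agent.Helper15.RG
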