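import Mathlib
import Pool.Agent.Helper15.RG.Prob

set_option autoImplicit false

/-!
MP_2f9829_co, random graphs: the model `G(n, p)` and the laws of one and of two degrees.
-/

namespace Pool.Agent.Helper15.RG

open Finset
open scoped Classical

/-- Expectation of `f` in the model `G(n, p)`. -/
noncomputable def exG (n : ℕ) (p : ℝ) (f : SimpleGraph (Fin n) → ℝ) : ℝ :=
  ∑ G : SimpleGraph (Fin n),
    p ^ (Set.ncard G.edgeSet) * (1 - p) ^ (n.choose 2 - Set.ncard G.edgeSet) * f G

/-- The degree. -/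
noncomputable def dg {n : ℕ} (G : SimpleGraph (Fin n)) (v : Fin n) : ℕ := (G.neighborSet v).ncard

/-- The edges of the complete graph. -/
noncomputable def EE (n : ℕ) : Finset (Sym2 (Fin n)) := (⊤ : SimpleGraph (Fin n)).edgeFinset

/-- The edges at `v` of the complete graph. -/
noncomputable def star (n : ℕ) (v : Fin n) : Finset (Sym2 (Fin n)) :=
  (EE n).filter (fun e => v ∈ e)

theorem card_EE (n : ℕ) : (EE n).card = n.choose 2 := by
  unfold EE
  rw [SimpleGraph.card_edgeFinset_top_eq_card_choose_two]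
  simp

theorem mem_EE (n : ℕ) (e : Sym2 (Fin n)) : e ∈ EE n ↔ ¬ e.IsDiag := by
  unfold EE
  rw [SimpleGraph.mem_edgeFinset]
  simp [SimpleGraph.edgeSet_top]

/-- The edges of `G`. -/
noncomputable def edg {n : ℕ} (G : SimpleGraph (Fin n)) : Finset (Sym2 (Fin n)) :=
  (EE n).filter (fun e => e ∈ G.edgeSet)

theorem mem_edg {n : ℕ} (G : SimpleGraph (Fin n)) (e : Sym2 (Fin n)) :
    e ∈ edg G ↔ e ∈ G.edgeSet := by
  unfold edg
  rw [Finset.mem_filter]
  constructor
  · intro h; exact h.2
  · intro h; exact ⟨(mem_EE n e).mpr (SimpleGraph.not_isDiag_of_mem_edgeSet G h), h⟩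

theorem exG_eq (n : ℕ) (p : ℝ) (f : SimpleGraph (Fin n) → ℝ) :
    exG n p f = ex p (EE n) (fun S => f (SimpleGraph.fromEdgeSet (S : Set (Sym2 (Fin n))))) := by
  unfold exG ex
  symm
  apply Finset.sum_bij' (fun (S : Finset (Sym2 (Fin n))) _ =>
      SimpleGraph.fromEdgeSet (S : Set (Sym2 (Fin n))))
    (fun (G : SimpleGraph (Fin n)) _ => edg G)
  · intro S _
    exact Finset.mem_univ _
  · intro G _
    rw [Finset.mem_powerset]
    exact Finset.filter_subset _ _
  · intro S hS
    rw [Finset.mem_powerset] at hS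
    ext e
    rw [mem_edg, SimpleGraph.edgeSet_fromEdgeSet]
    simp only [Set.mem_sdiff, Finset.mem_coe, Sym2.mem_diagSet]
    constructor
    · intro h; exact h.1
    · intro h; exact ⟨h, (mem_EE n e).mp (hS h)⟩
  · intro G _
    have h1 : ((edg G : Finset (Sym2 (Fin n))) : Set (Sym2 (Fin n))) = G.edgeSet := by
      ext e
      rw [Finset.mem_coe, mem_edg]
    rw [h1, SimpleGraph.fromEdgeSet_edgeSet]
  · intro S hS
    rw [Finset.mem_powerset] at hS
    have h1 : (SimpleGraph.fromEdgeSet (S : Set (Sym2 (Fin n)))).edgeSet = (S : Set (Sym2 (Fin n))) := by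
      rw [SimpleGraph.edgeSet_fromEdgeSet]
      ext e
      simp only [Set.mem_sdiff, Finset.mem_coe, Sym2.mem_diagSet]
      constructor
      · intro h; exact h.1
      · intro h; exact ⟨h, (mem_EE n e).mp (hS h)⟩
    rw [h1, Set.ncard_coe_finset, card_EE]

theorem dg_from (n : ℕ) (S : Finset (Sym2 (Fin n))) (hS : S ⊆ EE n) (v : Fin n) :
    dg (SimpleGraph.fromEdgeSet (S : Set (Sym2 (Fin n)))) v = (S ∩ star n v).card := by
  unfold dg
  rw [← Set.ncard_coe_finset]
  apply Set.ncard_congr (fun w _ => s(v, w))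
  · intro w hw
    rw [SimpleGraph.mem_neighborSet, SimpleGraph.fromEdgeSet_adj] at hw
    simp only [Finset.coe_inter, Set.mem_inter_iff, Finset.mem_coe, star, Finset.mem_filter]
    exact ⟨hw.1, hS hw.1, Sym2.mem_mk_left v w⟩
  · intro a b _ _ h
    have := Sym2.congr_right.mp h
    exact this
  · intro e he
    simp only [Finset.coe_inter, Set.mem_inter_iff, Finset.mem_coe, star, Finset.mem_filter] at he
    obtain ⟨w, hw⟩ := Sym2.mem_iff_exists.mp he.2.2
    refine ⟨w, ?_, hw.symm⟩
    rw [SimpleGraph.mem_neighborSet, SimpleGraph.fromEdgeSet_adj]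
    refine ⟨?_, ?_⟩
    · rw [← hw]; exact he.1
    · intro hvw
      have h1 := (mem_EE n e).mp he.2.1
      rw [hw, hvw] at h1
      exact h1 (by simp)

theorem star_sub (n : ℕ) (v : Fin n) : star n v ⊆ EE n := Finset.filter_subset _ _

theorem card_star (n : ℕ) (v : Fin n) : (star n v).card = n - 1 := by
  have h := dg_from n (EE n) (Finset.Subset.refl _) v
  have h1 : EE n ∩ star n v = star n v := Finset.inter_eq_right.mpr (star_sub n v)
  rw [h1] at h
  rw [← h]
  unfold dg
  have h2 : SimpleGraph.fromEdgeSet (EE n : Set (Sym2 (Fin n))) = ⊤ := by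
    unfold EE
    rw [SimpleGraph.coe_edgeFinset, SimpleGraph.fromEdgeSet_edgeSet]
  have h3 : (⊤ : SimpleGraph (Fin n)).neighborSet v =
      ((Finset.univ.erase v : Finset (Fin n)) : Set (Fin n)) := by
    ext w
    simp [eq_comm]
  rw [h2, h3, Set.ncard_coe_finset, Finset.card_erase_of_mem (Finset.mem_univ v),
    Finset.card_univ, Fintype.card_fin]

theorem star_inter (n : ℕ) (u v : Fin n) (h : u ≠ v) : star n u ∩ star n v = {s(u, v)} := by
  ext e
  simp only [star, Finset.mem_inter, Finset.mem_filter, Finset.mem_singleton, mem_EE]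
  constructor
  · rintro ⟨⟨_, h1⟩, ⟨_, h2⟩⟩
    exact (Sym2.mem_and_mem_iff h).mp ⟨h1, h2⟩
  · intro h1
    subst h1
    simp [h]

end Pool.Agent.Helper15.RG
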