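import Mathlib
import Pool.Agent.Helper15.RG.Graph

set_option autoImplicit false

/-!
MP_2f9829_co, random graphs: the laws of one and of two degrees in `G(n, p)`.
-/

namespace Pool.Agent.Helper15.RG

open Finset
open scoped Classical

theorem exG_ex (n : ℕ) (p : ℝ) (f : SimpleGraph (Fin n) → ℝ) (g : Finset (Sym2 (Fin n)) → ℝ)
    (h : ∀ S, S ⊆ EE n → f (SimpleGraph.fromEdgeSet (S : Set (Sym2 (Fin n)))) = g S) :
    exG n p f = ex p (EE n) g := by
  rw [exG_eq]
  exact ex_congr p _ _ _ h

theorem law1 (n : ℕ) (p : ℝ) (v : Fin n) (g : ℕ → ℝ) :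
    exG n p (fun G => g (dg G v)) = ∑ k ∈ range (n - 1 + 1), bt (n - 1) k p * g k := by
  rw [exG_ex n p _ (fun S => g (S ∩ star n v).card) (fun S hS => by rw [dg_from n S hS v])]
  rw [ex_marg p (EE n) (star n v) (star_sub n v) (fun T => g T.card), ex_card, card_star]

theorem ex_single_in {α : Type*} [DecidableEq α] (p : ℝ) (e : α) :
    ex p {e} (fun S => if e ∈ S then 1 else 0) = p := by
  have h := ex_sub p {e} {e} (Finset.Subset.refl _)
  simp only [Finset.singleton_subset_iff, Finset.card_singleton, pow_one] at h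
  exact h

theorem ex_single_out {α : Type*} [DecidableEq α] (p : ℝ) (e : α) :
    ex p {e} (fun S => if e ∈ S then 0 else 1) = 1 - p := by
  have h := ex_add p {e} (fun S => if e ∈ S then (1 : ℝ) else 0) (fun S => if e ∈ S then 0 else 1)
  have h1 : ex p {e} (fun S => (if e ∈ S then (1 : ℝ) else 0) + (if e ∈ S then 0 else 1)) = 1 := by
    refine (ex_congr p {e} _ (fun _ => 1) ?_).trans (ex_one p ({e} : Finset α))
    intro S _
    by_cases hS : e ∈ S
    · simp [hS]
    · simp [hS]
  rw [h1, ex_single_in] at h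
  linarith

theorem card_inter_star (n : ℕ) (S : Finset (Sym2 (Fin n))) (u v : Fin n) (h : u ≠ v) :
    (S ∩ star n u).card = (if s(u, v) ∈ S ∩ {s(u, v)} then 1 else 0) +
      ((S \ {s(u, v)}) ∩ (star n u \ {s(u, v)})).card := by
  have he : s(u, v) ∈ star n u := by
    simp only [star, Finset.mem_filter, mem_EE]
    exact ⟨by simpa using h, Sym2.mem_mk_left u v⟩
  have h1 : (S \ {s(u, v)}) ∩ (star n u \ {s(u, v)}) = (S ∩ star n u).erase s(u, v) := by
    ext e
    simp only [Finset.mem_inter, Finset.mem_sdiff, Finset.mem_singleton, Finset.mem_erase]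
    tauto
  rw [h1]
  by_cases hS : s(u, v) ∈ S
  · have h2 : s(u, v) ∈ S ∩ {s(u, v)} := by simp [hS]
    rw [if_pos h2, Finset.card_erase_of_mem (Finset.mem_inter.mpr ⟨hS, he⟩)]
    have : 0 < (S ∩ star n u).card := Finset.card_pos.mpr ⟨_, Finset.mem_inter.mpr ⟨hS, he⟩⟩
    omega
  · have h2 : s(u, v) ∉ S ∩ {s(u, v)} := by simp [hS]
    rw [if_neg h2, Finset.erase_eq_of_notMem]
    · simp
    · intro h3
      exact hS (Finset.mem_inter.mp h3).1

theorem law2 (n : ℕ) (p : ℝ) (u v : Fin n) (huv : u ≠ v) (g h : ℕ → ℝ) :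
    exG n p (fun G => g (dg G u) * h (dg G v)) =
      (1 - p) * ((∑ k ∈ range (n - 2 + 1), bt (n - 2) k p * g k) *
        (∑ k ∈ range (n - 2 + 1), bt (n - 2) k p * h k)) +
      p * ((∑ k ∈ range (n - 2 + 1), bt (n - 2) k p * g (k + 1)) *
        (∑ k ∈ range (n - 2 + 1), bt (n - 2) k p * h (k + 1))) := by
  set e : Sym2 (Fin n) := s(u, v) with hedef
  have heE : {e} ⊆ EE n := by
    rw [Finset.singleton_subset_iff, mem_EE]
    simpa [hedef] using huv
  have hvu : s(v, u) = e := Sym2.eq_swap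
  set F1 := star n u \ {e} with hF1
  set F2 := star n v \ {e} with hF2
  have heu : e ∈ star n u := by
    simp only [star, Finset.mem_filter, mem_EE]
    exact ⟨by simpa [hedef] using huv, Sym2.mem_mk_left u v⟩
  have hev : e ∈ star n v := by
    simp only [star, Finset.mem_filter, mem_EE]
    exact ⟨by simpa [hedef] using huv, Sym2.mem_mk_right u v⟩
  have hc1 : F1.card = n - 2 := by
    rw [hF1, Finset.card_sdiff_of_subset (Finset.singleton_subset_iff.mpr heu), card_star,
      Finset.card_singleton]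
    omega
  have hc2 : F2.card = n - 2 := by
    rw [hF2, Finset.card_sdiff_of_subset (Finset.singleton_subset_iff.mpr hev), card_star,
      Finset.card_singleton]
    omega
  have hF1E : F1 ⊆ EE n \ {e} := Finset.sdiff_subset_sdiff (star_sub n u) (Finset.Subset.refl _)
  have hF2E : F2 ⊆ (EE n \ {e}) \ F1 := by
    intro x hx
    rw [hF2, Finset.mem_sdiff] at hx
    rw [Finset.mem_sdiff, Finset.mem_sdiff]
    refine ⟨⟨star_sub n v hx.1, hx.2⟩, ?_⟩
    intro hx1
    rw [hF1, Finset.mem_sdiff] at hx1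
    have h3 : x ∈ star n u ∩ star n v := Finset.mem_inter.mpr ⟨hx1.1, hx.1⟩
    rw [star_inter n u v huv] at h3
    exact hx.2 h3
  -- the law on the complement of `e`
  have key : ∀ g h : ℕ → ℝ, ex p (EE n \ {e}) (fun T => g (T ∩ F1).card * h (T ∩ F2).card) =
      (∑ k ∈ range (n - 2 + 1), bt (n - 2) k p * g k) *
        (∑ k ∈ range (n - 2 + 1), bt (n - 2) k p * h k) := by
    intro g h
    have h1 : ex p (EE n \ {e}) (fun T => g (T ∩ F1).card * h (T ∩ F2).card) =
        ex p (EE n \ {e}) (fun T => (fun A => g A.card) (T ∩ F1) *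
          (fun B => h (B ∩ F2).card) (T \ F1)) := by
      apply ex_congr
      intro T _
      have h2 : (T \ F1) ∩ F2 = T ∩ F2 := by
        ext x
        simp only [Finset.mem_inter, Finset.mem_sdiff]
        constructor
        · rintro ⟨⟨a, _⟩, b⟩; exact ⟨a, b⟩
        · rintro ⟨a, b⟩
          exact ⟨⟨a, (Finset.mem_sdiff.mp (hF2E b)).2⟩, b⟩
      simp only [h2]
    rw [h1, ex_split p _ F1 hF1E (fun A => g A.card) (fun B => h (B ∩ F2).card), ex_card, hc1]
    rw [ex_marg p _ F2 hF2E (fun B => h B.card), ex_card, hc2]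
  rw [exG_ex n p _ (fun S => (if e ∈ S ∩ {e} then 1 else 0) *
      (g (((S \ {e}) ∩ F1).card + 1) * h (((S \ {e}) ∩ F2).card + 1)) +
    (if e ∈ S ∩ {e} then 0 else 1) * (g ((S \ {e}) ∩ F1).card * h ((S \ {e}) ∩ F2).card))]
  · rw [ex_add]
    rw [ex_split p (EE n) {e} heE (fun A => if e ∈ A then 1 else 0)
      (fun T => g ((T ∩ F1).card + 1) * h ((T ∩ F2).card + 1))]
    rw [ex_split p (EE n) {e} heE (fun A => if e ∈ A then 0 else 1)
      (fun T => g (T ∩ F1).card * h (T ∩ F2).card)]
    rw [ex_single_in, ex_single_out, key, key (fun k => g (k + 1)) (fun k => h (k + 1))]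
    ring
  · intro S hS
    rw [dg_from n S hS u, dg_from n S hS v, card_inter_star n S u v huv,
      card_inter_star n S v u (Ne.symm huv), hvu]
    by_cases hc : e ∈ S ∩ {e}
    · simp only [← hedef, hc, if_true]
      rw [Nat.add_comm 1, Nat.add_comm 1]
      ring
    · simp only [← hedef, hc, if_false]
      rw [Nat.zero_add, Nat.zero_add]
      ring

end Pool.Agent.Helper15.RG
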