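import Mathlib
import Pool.Agent.Helper15.RG.Law

set_option autoImplicit false

/-!
MP_2f9829_co, random graphs: first and second moment of the number of vertices of degree at least `t`.
-/

namespace Pool.Agent.Helper15.RG

open Finset
open scoped Classical

theorem exG_mono (n : ℕ) (p : ℝ) (hp0 : 0 ≤ p) (hp1 : p ≤ 1) (f g : SimpleGraph (Fin n) → ℝ)
    (h : ∀ G, f G ≤ g G) : exG n p f ≤ exG n p g := by
  rw [exG_eq, exG_eq]
  exact ex_mono p hp0 hp1 _ _ _ (fun S _ => h _)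

theorem exG_add (n : ℕ) (p : ℝ) (f g : SimpleGraph (Fin n) → ℝ) :
    exG n p (fun G => f G + g G) = exG n p f + exG n p g := by
  rw [exG_eq, exG_eq, exG_eq]
  exact ex_add p _ _ _

theorem exG_smul (n : ℕ) (p : ℝ) (c : ℝ) (f : SimpleGraph (Fin n) → ℝ) :
    exG n p (fun G => c * f G) = c * exG n p f := by
  rw [exG_eq, exG_eq]
  exact ex_smul p _ _ _

theorem exG_sum {ι : Type*} (n : ℕ) (p : ℝ) (s : Finset ι) (f : ι → SimpleGraph (Fin n) → ℝ) :
    exG n p (fun G => ∑ i ∈ s, f i G) = ∑ i ∈ s, exG n p (f i) := by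
  rw [exG_eq, ex_sum]
  apply Finset.sum_congr rfl
  intro i _
  rw [exG_eq]

theorem exG_one (n : ℕ) (p : ℝ) : exG n p (fun _ => 1) = 1 := by
  rw [exG_eq]
  exact ex_one p _

/-- The number of vertices of degree at least `t`. -/
noncomputable def Z {n : ℕ} (t : ℕ) (G : SimpleGraph (Fin n)) : ℕ :=
  (univ.filter (fun v : Fin n => t ≤ dg G v)).card

theorem Z_eq {n : ℕ} (t : ℕ) (G : SimpleGraph (Fin n)) :
    (Z t G : ℝ) = ∑ v : Fin n, (if t ≤ dg G v then (1 : ℝ) else 0) := by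
  unfold Z
  rw [Finset.sum_boole]

theorem tail_eq (N t : ℕ) (p : ℝ) :
    ∑ k ∈ range (N + 1), bt N k p * (if t ≤ k then (1 : ℝ) else 0) = BT N t p := by
  unfold BT
  rw [Finset.sum_filter]
  apply Finset.sum_congr rfl
  intro k _
  split_ifs
  · ring
  · ring

theorem bt_sum (N : ℕ) (p : ℝ) : ∑ k ∈ range (N + 1), bt N k p * 1 = 1 := by
  have h := ex_card p (range N) (fun _ => (1 : ℝ))
  rw [ex_one, Finset.card_range] at h
  exact h.symm

theorem bt_out (N k : ℕ) (p : ℝ) (h : N < k) : bt N k p = 0 := by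
  unfold bt
  rw [Nat.choose_eq_zero_of_lt h]
  simp

theorem tail_shift (N t : ℕ) (p : ℝ) (ht : 1 ≤ t) :
    ∑ k ∈ range (N + 1), bt N k p * (if t ≤ k + 1 then (1 : ℝ) else 0) =
      BT N t p + bt N (t - 1) p := by
  rw [← tail_eq]
  have h1 : ∀ k, bt N k p * (if t ≤ k + 1 then (1 : ℝ) else 0) =
      bt N k p * (if t ≤ k then (1 : ℝ) else 0) + (if k = t - 1 then bt N k p else 0) := by
    intro k
    by_cases h1 : t ≤ k
    · have h2 : t ≤ k + 1 := by omega
      have h3 : ¬ k = t - 1 := by omega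
      simp [h1, h2, h3]
    · by_cases h2 : t ≤ k + 1
      · have h3 : k = t - 1 := by omega
        rw [if_pos h2, if_neg h1, if_pos h3]
        ring
      · have h3 : ¬ k = t - 1 := by omega
        simp [h1, h2, h3]
  rw [Finset.sum_congr rfl (fun k _ => h1 k), Finset.sum_add_distrib]
  congr 1
  rw [Finset.sum_ite_eq']
  by_cases h2 : t - 1 ∈ range (N + 1)
  · rw [if_pos h2]
  · rw [if_neg h2, bt_out]
    rw [Finset.mem_range] at h2
    omega

theorem moment1 (n t : ℕ) (p : ℝ) : exG n p (fun G => (Z t G : ℝ)) = n * BT (n - 1) t p := by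
  have h1 : (fun G : SimpleGraph (Fin n) => (Z t G : ℝ)) =
      fun G => ∑ v ∈ (univ : Finset (Fin n)), (if t ≤ dg G v then (1 : ℝ) else 0) := by
    funext G
    exact Z_eq t G
  rw [h1, exG_sum]
  have h2 : ∀ v : Fin n, exG n p (fun G => if t ≤ dg G v then (1 : ℝ) else 0) = BT (n - 1) t p := by
    intro v
    rw [law1 n p v (fun k => if t ≤ k then (1 : ℝ) else 0), tail_eq]
  rw [Finset.sum_congr rfl (fun v _ => h2 v)]
  simp

/-- The tail of the degree in terms of the tail with one pair fixed. -/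
theorem tail_rec (n t : ℕ) (p : ℝ) (hn : 2 ≤ n) (ht : 1 ≤ t) :
    BT (n - 1) t p = (1 - p) * BT (n - 2) t p + p * (BT (n - 2) t p + bt (n - 2) (t - 1) p) := by
  have hu : (⟨0, by omega⟩ : Fin n) ≠ ⟨1, by omega⟩ := by
    intro h
    have := congrArg Fin.val h
    simp at this
  have h := law2 n p ⟨0, by omega⟩ ⟨1, by omega⟩ hu (fun k => if t ≤ k then (1 : ℝ) else 0)
    (fun _ => 1)
  simp only [mul_one, tail_shift _ _ _ ht] at h
  rw [law1 n p ⟨0, by omega⟩ (fun k => if t ≤ k then (1 : ℝ) else 0), tail_eq] at h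
  have h2 := tail_eq (n - 2) t p
  rw [h2] at h
  have h3 : ∑ k ∈ range (n - 2 + 1), bt (n - 2) k p = 1 := by
    have := bt_sum (n - 2) p
    simpa using this
  rw [h, h3]
  ring

theorem moment2 (n t : ℕ) (p : ℝ) (hn : 2 ≤ n) (ht : 1 ≤ t) :
    exG n p (fun G => (Z t G : ℝ) ^ 2) = n * BT (n - 1) t p + n * (n - 1) *
      (BT (n - 1) t p ^ 2 + p * (1 - p) * bt (n - 2) (t - 1) p ^ 2) := by
  have h1 : (fun G : SimpleGraph (Fin n) => (Z t G : ℝ) ^ 2) =
      fun G => ∑ x ∈ (univ : Finset (Fin n)) ×ˢ (univ : Finset (Fin n)),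
        (if t ≤ dg G x.1 then (1 : ℝ) else 0) * (if t ≤ dg G x.2 then (1 : ℝ) else 0) := by
    funext G
    rw [Z_eq, sq, Finset.sum_mul_sum, ← Finset.sum_product']
  rw [h1, exG_sum, Finset.sum_product]
  have hd : ∀ v : Fin n, exG n p (fun G => (if t ≤ dg G v then (1 : ℝ) else 0) *
      (if t ≤ dg G v then (1 : ℝ) else 0)) = BT (n - 1) t p := by
    intro v
    rw [← tail_eq, ← law1 n p v (fun k => if t ≤ k then (1 : ℝ) else 0)]
    congr 1
    funext G
    split_ifs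
    · ring
    · ring
  have ho : ∀ u v : Fin n, u ≠ v → exG n p (fun G => (if t ≤ dg G u then (1 : ℝ) else 0) *
      (if t ≤ dg G v then (1 : ℝ) else 0)) =
        BT (n - 1) t p ^ 2 + p * (1 - p) * bt (n - 2) (t - 1) p ^ 2 := by
    intro u v huv
    rw [law2 n p u v huv (fun k => if t ≤ k then (1 : ℝ) else 0)
      (fun k => if t ≤ k then (1 : ℝ) else 0)]
    simp only [tail_shift _ _ _ ht, tail_eq]
    rw [tail_rec n t p hn ht]
    ring
  have hs : ∀ u : Fin n, ∑ v : Fin n, exG n p (fun G => (if t ≤ dg G u then (1 : ℝ) else 0) *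
      (if t ≤ dg G v then (1 : ℝ) else 0)) = BT (n - 1) t p + (n - 1) *
        (BT (n - 1) t p ^ 2 + p * (1 - p) * bt (n - 2) (t - 1) p ^ 2) := by
    intro u
    rw [← Finset.add_sum_erase _ _ (Finset.mem_univ u), hd]
    congr 1
    rw [Finset.sum_congr rfl (fun v hv => ho u v (Ne.symm (Finset.ne_of_mem_erase hv)))]
    rw [Finset.sum_const, Finset.card_erase_of_mem (Finset.mem_univ u), Finset.card_univ,
      Fintype.card_fin, nsmul_eq_mul, Nat.cast_sub (by omega), Nat.cast_one]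
  rw [Finset.sum_congr rfl (fun u _ => hs u)]
  rw [Finset.sum_const, Finset.card_univ, Fintype.card_fin, nsmul_eq_mul]
  ring

theorem bt_nonneg (N k : ℕ) (p : ℝ) (hp0 : 0 ≤ p) (hp1 : p ≤ 1) : 0 ≤ bt N k p := by
  unfold bt
  apply mul_nonneg (mul_nonneg (Nat.cast_nonneg _) (pow_nonneg hp0 _)) (pow_nonneg (by linarith) _)

theorem BT_nonneg (N k : ℕ) (p : ℝ) (hp0 : 0 ≤ p) (hp1 : p ≤ 1) : 0 ≤ BT N k p := by
  unfold BT
  exact Finset.sum_nonneg (fun j _ => bt_nonneg N j p hp0 hp1)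

/-- Chebyshev. -/
theorem cheb (n t : ℕ) (p ε : ℝ) (hp0 : 0 ≤ p) (hp1 : p ≤ 1) (hn : 2 ≤ n) (ht : 1 ≤ t)
    (hε : 0 < ε) (hε1 : ε ≤ 1) (h1 : 1 / ε ≤ n * BT (n - 1) t p)
    (h2 : bt (n - 2) (t - 1) p ≤ ε * BT (n - 1) t p) :
    exG n p (fun G => if Z t G = 0 then 1 else 0) ≤ 2 * ε := by
  set T := BT (n - 1) t p with hT
  set β := bt (n - 2) (t - 1) p with hβ
  have hβ0 : 0 ≤ β := bt_nonneg _ _ _ hp0 hp1
  have hn0 : (0 : ℝ) < n := by exact_mod_cast (by omega : 0 < n)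
  have hnT : 0 < n * T := lt_of_lt_of_le (by positivity) h1
  have hT0 : 0 < T := by
    by_contra hc
    push Not at hc
    have : n * T ≤ 0 := mul_nonpos_of_nonneg_of_nonpos hn0.le hc
    linarith
  have hE : exG n p (fun G => ((Z t G : ℝ) - n * T) ^ 2) ≤ n * T + (n * β) ^ 2 / 4 := by
    have h3 : (fun G : SimpleGraph (Fin n) => ((Z t G : ℝ) - n * T) ^ 2) =
        fun G => (Z t G : ℝ) ^ 2 + ((-(2 * (n * T))) * (Z t G : ℝ) + (n * T) ^ 2 * 1) := by
      funext G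
      ring
    rw [h3, exG_add, exG_add, exG_smul, exG_smul, exG_one, moment1, moment2 n t p hn ht, ← hT, ← hβ]
    have hpq : p * (1 - p) ≤ 1 / 4 := by nlinarith [sq_nonneg (p - 1 / 2)]
    have hpq0 : 0 ≤ p * (1 - p) := mul_nonneg hp0 (by linarith)
    have h5 : p * (1 - p) * β ^ 2 ≤ 1 / 4 * β ^ 2 :=
      mul_le_mul_of_nonneg_right hpq (sq_nonneg β)
    have h6 : 0 ≤ p * (1 - p) * β ^ 2 := mul_nonneg hpq0 (sq_nonneg β)
    have h7 : (n : ℝ) * (n - 1) * (T ^ 2 + p * (1 - p) * β ^ 2) ≤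
        (n : ℝ) * n * (T ^ 2 + p * (1 - p) * β ^ 2) := by
      apply mul_le_mul_of_nonneg_right _ (by positivity)
      nlinarith
    have h8 : (n : ℝ) * n * (p * (1 - p) * β ^ 2) ≤ (n : ℝ) * n * (1 / 4 * β ^ 2) :=
      mul_le_mul_of_nonneg_left h5 (by positivity)
    nlinarith
  have hM : (n * T) ^ 2 * exG n p (fun G => if Z t G = 0 then 1 else 0) ≤
      exG n p (fun G => ((Z t G : ℝ) - n * T) ^ 2) := by
    rw [← exG_smul]
    apply exG_mono n p hp0 hp1
    intro G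
    split_ifs with hc
    · rw [hc]
      simp
    · rw [mul_zero]
      exact sq_nonneg _
  have h9 : (n * T) ^ 2 * exG n p (fun G => if Z t G = 0 then 1 else 0) ≤
      n * T + (n * β) ^ 2 / 4 := hM.trans hE
  have h10 : n * T ≤ ε * (n * T) ^ 2 := by
    have : 1 ≤ ε * (n * T) := by
      rw [div_le_iff₀ hε] at h1
      linarith
    nlinarith
  have h11 : (n * β) ^ 2 ≤ (n * T) ^ 2 * ε ^ 2 := by
    have h12 : n * β ≤ n * T * ε := by nlinarith
    have h13 : 0 ≤ n * β := by positivity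
    calc (n * β) ^ 2 ≤ (n * T * ε) ^ 2 := pow_le_pow_left₀ h13 h12 2
      _ = (n * T) ^ 2 * ε ^ 2 := by ring
  have h12 : ε ^ 2 ≤ ε := by nlinarith
  have h13 : (n * T) ^ 2 * exG n p (fun G => if Z t G = 0 then 1 else 0) ≤
      (n * T) ^ 2 * (2 * ε) := by
    have h14 : (n * T) ^ 2 * ε ^ 2 ≤ (n * T) ^ 2 * ε :=
      mul_le_mul_of_nonneg_left h12 (sq_nonneg _)
    nlinarith [sq_nonneg (n * T)]
  exact le_of_mul_le_mul_left h13 (by positivity)

/-- Markov. -/
theorem markov (n t : ℕ) (p ε x : ℝ) (hp0 : 0 ≤ p) (hp1 : p ≤ 1) (hx : 0 < x)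
    (h1 : n * BT (n - 1) t p ≤ ε * x) :
    exG n p (fun G => if x < (Z t G : ℝ) then 1 else 0) ≤ ε := by
  have hM : x * exG n p (fun G => if x < (Z t G : ℝ) then 1 else 0) ≤
      exG n p (fun G => (Z t G : ℝ)) := by
    rw [← exG_smul]
    apply exG_mono n p hp0 hp1
    intro G
    split_ifs with hc
    · linarith
    · rw [mul_zero]
      exact Nat.cast_nonneg _
  rw [moment1] at hM
  have h2 : x * exG n p (fun G => if x < (Z t G : ℝ) then 1 else 0) ≤ x * ε := by linarith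
  exact le_of_mul_le_mul_left h2 hx

end Pool.Agent.Helper15.RG
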