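import Mathlib
import Pool.Agent.Helper15.RG.Moment

set_option autoImplicit false

/-!
MP_2f9829_co, random graphs: first moment bound for subgraphs of minimum degree at least `2r`.
-/

namespace Pool.Agent.Helper15.RG

open Finset
open scoped Classical

/-- The pairs inside `W`. -/
noncomputable def P2 {n : ℕ} (W : Finset (Fin n)) : Finset (Sym2 (Fin n)) :=
  (W.offDiag).image (Function.uncurry Sym2.mk)

/-- `G` has a nonempty set of vertices of minimum degree at least `2r`. -/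
def Bad (n r : ℕ) (G : SimpleGraph (Fin n)) : Prop :=
  ∃ W : Finset (Fin n), W.Nonempty ∧ ∀ v ∈ W, 2 * r ≤ (W.filter (fun w => G.Adj v w)).card

theorem mem_P2 {n : ℕ} (W : Finset (Fin n)) (a b : Fin n) (ha : a ∈ W) (hb : b ∈ W) (hab : a ≠ b) :
    s(a, b) ∈ P2 W := by
  unfold P2
  rw [Finset.mem_image]
  exact ⟨(a, b), by simp [ha, hb, hab], rfl⟩

theorem card_P2 {n : ℕ} (W : Finset (Fin n)) : (P2 W).card = W.card.choose 2 :=
  Sym2.card_image_offDiag W

theorem P2_sub {n : ℕ} (W : Finset (Fin n)) : P2 W ⊆ EE n := by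
  intro e he
  unfold P2 at he
  rw [Finset.mem_image] at he
  obtain ⟨⟨a, b⟩, hab, rfl⟩ := he
  rw [Finset.mem_offDiag] at hab
  rw [mem_EE]
  simpa using hab.2.2

theorem handshake {n : ℕ} (G : SimpleGraph (Fin n)) (W : Finset (Fin n)) (r : ℕ)
    (h : ∀ v ∈ W, 2 * r ≤ (W.filter (fun w => G.Adj v w)).card) :
    ∃ F : Finset (Sym2 (Fin n)), F ⊆ P2 W ∧ F.card = r * W.card ∧ F ⊆ edg G := by
  let H : SimpleGraph (Fin n) :=
    { Adj := fun a b => G.Adj a b ∧ a ∈ W ∧ b ∈ W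
      symm := ⟨fun a b h => ⟨h.1.symm, h.2.2, h.2.1⟩⟩
      loopless := ⟨fun a h => G.loopless.irrefl a h.1⟩ }
  have hdeg : ∀ v ∈ W, 2 * r ≤ H.degree v := by
    intro v hv
    have h1 : W.filter (fun w => G.Adj v w) = H.neighborFinset v := by
      ext w
      rw [Finset.mem_filter, SimpleGraph.mem_neighborFinset]
      constructor
      · rintro ⟨a, b⟩; exact ⟨b, hv, a⟩
      · rintro ⟨a, _, b⟩; exact ⟨b, a⟩
    have h2 := h v hv
    rw [h1] at h2
    exact h2
  have hsum : 2 * r * W.card ≤ 2 * H.edgeFinset.card := by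
    rw [← SimpleGraph.sum_degrees_eq_twice_card_edges H]
    calc 2 * r * W.card = ∑ _v ∈ W, 2 * r := by rw [Finset.sum_const, smul_eq_mul, Nat.mul_comm]
      _ ≤ ∑ v ∈ W, H.degree v := Finset.sum_le_sum hdeg
      _ ≤ ∑ v, H.degree v := Finset.sum_le_sum_of_subset (Finset.subset_univ W)
  have hcard : r * W.card ≤ H.edgeFinset.card := by
    have : 2 * (r * W.card) ≤ 2 * H.edgeFinset.card := by
      rw [← Nat.mul_assoc]; exact hsum
    omega
  obtain ⟨F, hF1, hF2⟩ := Finset.exists_subset_card_eq hcard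
  refine ⟨F, ?_, hF2, ?_⟩
  · intro e he
    have h3 := hF1 he
    rw [SimpleGraph.mem_edgeFinset] at h3
    induction e using Sym2.ind with
    | _ a b =>
      have h4 : G.Adj a b ∧ a ∈ W ∧ b ∈ W := h3
      exact mem_P2 W a b h4.2.1 h4.2.2 h4.1.ne
  · intro e he
    have h3 := hF1 he
    rw [SimpleGraph.mem_edgeFinset] at h3
    rw [mem_edg]
    induction e using Sym2.ind with
    | _ a b =>
      have h4 : G.Adj a b ∧ a ∈ W ∧ b ∈ W := h3
      exact h4.1

theorem edg_from {n : ℕ} (S : Finset (Sym2 (Fin n))) (hS : S ⊆ EE n) :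
    edg (SimpleGraph.fromEdgeSet (S : Set (Sym2 (Fin n)))) = S := by
  ext e
  rw [mem_edg, SimpleGraph.edgeSet_fromEdgeSet]
  simp only [Set.mem_sdiff, Finset.mem_coe, Sym2.mem_diagSet]
  constructor
  · intro h; exact h.1
  · intro h; exact ⟨h, (mem_EE n e).mp (hS h)⟩

theorem exG_sub (n : ℕ) (p : ℝ) (F : Finset (Sym2 (Fin n))) (hF : F ⊆ EE n) :
    exG n p (fun G => if F ⊆ edg G then 1 else 0) = p ^ F.card := by
  rw [exG_ex n p _ (fun S => if F ⊆ S then 1 else 0) (fun S hS => by rw [edg_from S hS])]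
  exact ex_sub p _ _ hF

theorem bad_le (n r : ℕ) (p : ℝ) (hp0 : 0 ≤ p) (hp1 : p ≤ 1) :
    exG n p (fun G => if Bad n r G then 1 else 0) ≤
      ∑ s ∈ Finset.Icc 1 n, (n.choose s : ℝ) * (((s.choose 2).choose (r * s) : ℕ) : ℝ) *
        p ^ (r * s) := by
  have h1 : exG n p (fun G => if Bad n r G then 1 else 0) ≤
      exG n p (fun G => ∑ W ∈ (univ : Finset (Finset (Fin n))).filter (fun W => W.Nonempty),
        ∑ F ∈ (P2 W).powersetCard (r * W.card), if F ⊆ edg G then (1 : ℝ) else 0) := by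
    apply exG_mono n p hp0 hp1
    intro G
    have hnn : ∀ W : Finset (Fin n), 0 ≤ ∑ F ∈ (P2 W).powersetCard (r * W.card),
        (if F ⊆ edg G then (1 : ℝ) else 0) := by
      intro W
      apply Finset.sum_nonneg
      intro F _
      split_ifs
      · exact zero_le_one
      · exact le_refl _
    split_ifs with hb
    · obtain ⟨W, hW, hWd⟩ := hb
      obtain ⟨F, hF1, hF2, hF3⟩ := handshake G W r hWd
      calc (1 : ℝ) = if F ⊆ edg G then (1 : ℝ) else 0 := by rw [if_pos hF3]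
        _ ≤ ∑ F ∈ (P2 W).powersetCard (r * W.card), (if F ⊆ edg G then (1 : ℝ) else 0) :=
            Finset.single_le_sum (f := fun F => if F ⊆ edg G then (1 : ℝ) else 0)
              (fun F _ => by split_ifs <;> norm_num)
              (Finset.mem_powersetCard.mpr ⟨hF1, hF2⟩)
        _ ≤ _ := Finset.single_le_sum (f := fun W => ∑ F ∈ (P2 W).powersetCard (r * W.card),
              (if F ⊆ edg G then (1 : ℝ) else 0)) (fun W _ => hnn W)
              (Finset.mem_filter.mpr ⟨Finset.mem_univ W, hW⟩)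
    · exact Finset.sum_nonneg (fun W _ => hnn W)
  refine h1.trans (le_of_eq ?_)
  rw [exG_sum]
  have h2 : ∀ W : Finset (Fin n), exG n p (fun G => ∑ F ∈ (P2 W).powersetCard (r * W.card),
      if F ⊆ edg G then (1 : ℝ) else 0) =
      (((W.card.choose 2).choose (r * W.card) : ℕ) : ℝ) * p ^ (r * W.card) := by
    intro W
    rw [exG_sum]
    rw [Finset.sum_congr rfl (g := fun _ => p ^ (r * W.card))]
    · rw [Finset.sum_const, Finset.card_powersetCard, card_P2, nsmul_eq_mul]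
    · intro F hF
      rw [Finset.mem_powersetCard] at hF
      rw [exG_sub n p F (hF.1.trans (P2_sub W)), hF.2]
  rw [Finset.sum_congr rfl (fun W _ => h2 W)]
  have h3 : ∑ W ∈ (univ : Finset (Finset (Fin n))).filter (fun W => W.Nonempty),
      (((W.card.choose 2).choose (r * W.card) : ℕ) : ℝ) * p ^ (r * W.card) =
      ∑ W ∈ (univ : Finset (Fin n)).powerset, (if 1 ≤ W.card then
        ((((W.card.choose 2).choose (r * W.card) : ℕ) : ℝ) * p ^ (r * W.card)) else 0) := by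
    rw [Finset.powerset_univ, Finset.sum_filter]
    apply Finset.sum_congr rfl
    intro W _
    have : W.Nonempty ↔ 1 ≤ W.card := by
      rw [← Finset.card_pos, Nat.succ_le_iff]
    simp only [this]
  rw [h3, Finset.sum_powerset_apply_card (fun s => if 1 ≤ s then
        ((((s.choose 2).choose (r * s) : ℕ) : ℝ) * p ^ (r * s)) else 0)]
  rw [Finset.card_univ, Fintype.card_fin, Finset.range_eq_Ico, Finset.sum_eq_sum_Ico_succ_bot
    (Nat.succ_pos n)]
  simp only [nonpos_iff_eq_zero, one_ne_zero, if_false, smul_zero, zero_add]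
  have h4 : Finset.Ico 1 (n + 1) = Finset.Icc 1 n := by
    ext s
    simp only [Finset.mem_Ico, Finset.mem_Icc]
    omega
  rw [h4]
  apply Finset.sum_congr rfl
  intro s hs
  rw [Finset.mem_Icc] at hs
  rw [if_pos hs.1, nsmul_eq_mul]
  ring

theorem choose_le_exp (N k : ℕ) (hk : 1 ≤ k) (x : ℝ) (hx : (N : ℝ) ≤ x) :
    (N.choose k : ℝ) ≤ (Real.exp 1 * x / k) ^ k := by
  have hk0 : (0 : ℝ) < k := by exact_mod_cast hk
  have h1 : (N.choose k : ℝ) ≤ (N : ℝ) ^ k / (k.factorial : ℝ) := Nat.choose_le_pow_div k N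
  have h2 : (k : ℝ) ^ k / (k.factorial : ℝ) ≤ Real.exp k :=
    Real.pow_div_factorial_le_exp k hk0.le k
  have hf : (0 : ℝ) < (k.factorial : ℝ) := by exact_mod_cast Nat.factorial_pos k
  have h3 : 1 / (k.factorial : ℝ) ≤ Real.exp 1 ^ k / (k : ℝ) ^ k := by
    rw [← Real.exp_nat_mul, mul_one]
    rw [div_le_div_iff₀ hf (by positivity)]
    rw [div_le_iff₀ hf] at h2
    linarith
  have hx0 : 0 ≤ x := le_trans (Nat.cast_nonneg N) hx
  have h4 : (N : ℝ) ^ k ≤ x ^ k := pow_le_pow_left₀ (Nat.cast_nonneg N) hx k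
  calc (N.choose k : ℝ) ≤ (N : ℝ) ^ k / (k.factorial : ℝ) := h1
    _ = (N : ℝ) ^ k * (1 / (k.factorial : ℝ)) := by ring
    _ ≤ x ^ k * (Real.exp 1 ^ k / (k : ℝ) ^ k) := by
        apply mul_le_mul h4 h3 (by positivity) (by positivity)
    _ = (Real.exp 1 * x / k) ^ k := by rw [div_pow, mul_pow]; ring

theorem choose_two_le (s : ℕ) : ((s.choose 2 : ℕ) : ℝ) ≤ (s : ℝ) ^ 2 / 2 := by
  have h := Nat.choose_le_pow_div (α := ℝ) 2 s
  simpa using h

/-- One term of the first moment bound. -/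
theorem term_le (n r s : ℕ) (p : ℝ) (hp0 : 0 ≤ p) (hr : 1 ≤ r) (hs : 1 ≤ s) :
    (n.choose s : ℝ) * (((s.choose 2).choose (r * s) : ℕ) : ℝ) * p ^ (r * s) ≤
      ((Real.exp 1 * n / s) * (Real.exp 1 * s * p / (2 * r)) ^ r) ^ s := by
  have hs0 : (0 : ℝ) < s := by exact_mod_cast hs
  have hr0 : (0 : ℝ) < r := by exact_mod_cast hr
  have h1 := choose_le_exp n s hs n le_rfl
  have h2 := choose_le_exp (s.choose 2) (r * s) (Nat.mul_pos hr hs) _ (choose_two_le s)
  have h3 : Real.exp 1 * ((s : ℝ) ^ 2 / 2) / ((r * s : ℕ) : ℝ) = Real.exp 1 * s / (2 * r) := by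
    push_cast
    field_simp
  rw [h3] at h2
  have h4 : ((Real.exp 1 * n / s) * (Real.exp 1 * s * p / (2 * r)) ^ r) ^ s =
      (Real.exp 1 * n / s) ^ s * ((Real.exp 1 * s / (2 * r)) ^ (r * s) * p ^ (r * s)) := by
    rw [mul_pow, ← pow_mul, ← mul_pow]
    congr 2
    ring
  rw [h4, mul_assoc]
  apply mul_le_mul h1 _ (by positivity) (by positivity)
  exact mul_le_mul_of_nonneg_right h2 (by positivity)

/-- Almost surely no cycle when `n p` is small. -/
theorem bad_one (n : ℕ) (p : ℝ) (hp0 : 0 ≤ p) (hp1 : p ≤ 1) (hnp : n * p ≤ 1 / 8) :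
    exG n p (fun G => if Bad n 1 G then 1 else 0) ≤ 8 * (n * p) := by
  refine (bad_le n 1 p hp0 hp1).trans ?_
  have he : Real.exp 1 < 2.7182818286 := Real.exp_one_lt_d9
  have he0 : 0 < Real.exp 1 := Real.exp_pos 1
  have hnp0 : 0 ≤ n * p := by positivity
  have h1 : ∀ s ∈ Finset.Icc 1 n, (n.choose s : ℝ) * (((s.choose 2).choose (1 * s) : ℕ) : ℝ) *
        p ^ (1 * s) ≤ (4 * (n * p)) ^ s := by
    intro s hs
    rw [Finset.mem_Icc] at hs
    have hs0 : (0 : ℝ) < s := by exact_mod_cast hs.1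
    refine (term_le n 1 s p hp0 le_rfl hs.1).trans ?_
    apply pow_le_pow_left₀ (by positivity)
    rw [pow_one, Nat.cast_one, mul_one]
    have h2 : Real.exp 1 * n / s * (Real.exp 1 * s * p / 2) = Real.exp 1 ^ 2 / 2 * (n * p) := by
      field_simp
    rw [h2]
    apply mul_le_mul_of_nonneg_right _ hnp0
    nlinarith
  refine (Finset.sum_le_sum h1).trans ?_
  have h2 : ∀ s ∈ Finset.Icc 1 n, (4 * (n * p)) ^ s ≤ (8 * (n * p)) * (1 / 2) ^ s := by
    intro s hs
    rw [Finset.mem_Icc] at hs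
    obtain ⟨k, rfl⟩ : ∃ k, s = k + 1 := ⟨s - 1, by omega⟩
    have h3 : (4 * (n * p)) ^ k ≤ (1 / 2) ^ k := pow_le_pow_left₀ (by positivity) (by linarith) k
    calc (4 * (n * p)) ^ (k + 1) = (4 * (n * p)) ^ k * (4 * (n * p)) := pow_succ _ _
      _ ≤ (1 / 2) ^ k * (4 * (n * p)) := mul_le_mul_of_nonneg_right h3 (by positivity)
      _ = (8 * (n * p)) * (1 / 2) ^ (k + 1) := by rw [pow_succ]; ring
  refine (Finset.sum_le_sum h2).trans ?_
  rw [← Finset.mul_sum]
  have h3 : ∑ s ∈ Finset.Icc 1 n, (1 / 2 : ℝ) ^ s ≤ 1 := by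
    have h4 : ∀ m : ℕ, ∑ s ∈ Finset.Icc 1 m, (1 / 2 : ℝ) ^ s = 1 - (1 / 2) ^ m := by
      intro m
      induction m with
      | zero => simp
      | succ m ih =>
        rw [Finset.sum_Icc_succ_top (by omega), ih, pow_succ]
        ring
    rw [h4]
    have : (0 : ℝ) ≤ (1 / 2) ^ n := by positivity
    linarith
  calc 8 * (n * p) * ∑ s ∈ Finset.Icc 1 n, (1 / 2 : ℝ) ^ s ≤ 8 * (n * p) * 1 :=
        mul_le_mul_of_nonneg_left h3 (by positivity)
    _ = 8 * (n * p) := mul_one _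

/-- Almost surely `G(n, p)` is `(2r - 1)`-degenerate, `r ≥ 12 n p`, `r ≥ 2`. -/
theorem bad_two (n r : ℕ) (p : ℝ) (hp0 : 0 ≤ p) (hp1 : p ≤ 1) (hn : 1 ≤ n) (hr : 2 ≤ r)
    (hnp : 12 * (n * p) ≤ r) :
    exG n p (fun G => if Bad n r G then 1 else 0) ≤ 1 / n := by
  refine (bad_le n r p hp0 hp1).trans ?_
  have he : Real.exp 1 < 2.7182818286 := Real.exp_one_lt_d9
  have he0 : 0 < Real.exp 1 := Real.exp_pos 1
  have hnp0 : 0 ≤ n * p := by positivity
  have hn0 : (0 : ℝ) < n := by exact_mod_cast hn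
  have hr0 : (0 : ℝ) < r := by exact_mod_cast (by omega : 0 < r)
  have h1 : ∀ s ∈ Finset.Icc 1 n, (n.choose s : ℝ) * (((s.choose 2).choose (r * s) : ℕ) : ℝ) *
        p ^ (r * s) ≤ (1 / n) * (1 / 2) ^ s := by
    intro s hs
    rw [Finset.mem_Icc] at hs
    have hs0 : (0 : ℝ) < s := by exact_mod_cast hs.1
    have hsn : (s : ℝ) ≤ n := by exact_mod_cast hs.2
    refine (term_le n r s p hp0 (by omega) hs.1).trans ?_
    have h2 : Real.exp 1 * s * p / (2 * r) ≤ (s / n) / 8 := by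
      rw [div_le_div_iff₀ (by positivity) (by norm_num)]
      have h3 : Real.exp 1 * s * p * 8 = Real.exp 1 * 8 / 12 * (s / n) * (12 * (n * p)) := by
        field_simp
      rw [h3]
      have h4 : Real.exp 1 * 8 / 12 * (s / n) * (12 * (n * p)) ≤
          2 * (s / n) * r := by
        apply mul_le_mul _ hnp (by positivity) (by positivity)
        apply mul_le_mul_of_nonneg_right _ (by positivity)
        linarith
      linarith
    have hx : s / n / 8 ≤ (1 : ℝ) := by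
      have : (s : ℝ) / n ≤ 1 := by rw [div_le_one hn0]; exact hsn
      linarith
    have h5 : (Real.exp 1 * s * p / (2 * r)) ^ r ≤ ((s / n) / 8) ^ 2 :=
      (pow_le_pow_left₀ (by positivity) h2 r).trans
        (pow_le_pow_of_le_one (by positivity) hx hr)
    have h6 : Real.exp 1 * n / s * (Real.exp 1 * s * p / (2 * r)) ^ r ≤ (s / n) / 20 := by
      calc Real.exp 1 * n / s * (Real.exp 1 * s * p / (2 * r)) ^ r
          ≤ Real.exp 1 * n / s * ((s / n) / 8) ^ 2 := mul_le_mul_of_nonneg_left h5 (by positivity)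
        _ = Real.exp 1 / 64 * (s / n) := by field_simp; ring
        _ ≤ (s / n) / 20 := by
            have : (0 : ℝ) ≤ s / n := by positivity
            nlinarith
    have h7 : (Real.exp 1 * n / s * (Real.exp 1 * s * p / (2 * r)) ^ r) ^ s ≤
        ((s / n) / 20) ^ s := pow_le_pow_left₀ (by positivity) h6 s
    refine h7.trans ?_
    obtain ⟨k, rfl⟩ : ∃ k, s = k + 1 := ⟨s - 1, by omega⟩
    have h8 : (((k + 1 : ℕ) : ℝ) / n / 20) ^ k ≤ (1 / 20) ^ k := by
      apply pow_le_pow_left₀ (by positivity)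
      have : ((k + 1 : ℕ) : ℝ) / n ≤ 1 := by rw [div_le_one hn0]; exact hsn
      linarith
    have h9 : ((k + 1 : ℕ) : ℝ) * (1 / 20) ^ k ≤ 10 * (1 / 2) ^ k := by
      have h10 : ∀ k : ℕ, ((k + 1 : ℕ) : ℝ) ≤ 2 ^ k := by
        intro k
        induction k with
        | zero => simp
        | succ k ih =>
          rw [pow_succ]
          push_cast at ih ⊢
          linarith [Nat.cast_nonneg (α := ℝ) k]
      have h11 : (2 : ℝ) ^ k * (1 / 20) ^ k = (1 / 10) ^ k := by
        rw [← mul_pow]; norm_num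
      have h12 : (1 / 10 : ℝ) ^ k ≤ (1 / 2) ^ k :=
        pow_le_pow_left₀ (by norm_num) (by norm_num) k
      have h13 : ((k + 1 : ℕ) : ℝ) * (1 / 20) ^ k ≤ 2 ^ k * (1 / 20) ^ k :=
        mul_le_mul_of_nonneg_right (h10 k) (by positivity)
      have h14 : (0 : ℝ) ≤ (1 / 2) ^ k := by positivity
      linarith
    calc (((k + 1 : ℕ) : ℝ) / n / 20) ^ (k + 1)
        = (((k + 1 : ℕ) : ℝ) / n / 20) ^ k * (((k + 1 : ℕ) : ℝ) / n / 20) := pow_succ _ _
      _ ≤ (1 / 20) ^ k * (((k + 1 : ℕ) : ℝ) / n / 20) :=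
          mul_le_mul_of_nonneg_right h8 (by positivity)
      _ = (((k + 1 : ℕ) : ℝ) * (1 / 20) ^ k) * (1 / (20 * n)) := by field_simp
      _ ≤ (10 * (1 / 2) ^ k) * (1 / (20 * n)) := mul_le_mul_of_nonneg_right h9 (by positivity)
      _ = (1 / n) * (1 / 2) ^ (k + 1) := by rw [pow_succ]; field_simp; norm_num
  refine (Finset.sum_le_sum h1).trans ?_
  rw [← Finset.mul_sum]
  have h3 : ∑ s ∈ Finset.Icc 1 n, (1 / 2 : ℝ) ^ s ≤ 1 := by
    have h4 : ∀ m : ℕ, ∑ s ∈ Finset.Icc 1 m, (1 / 2 : ℝ) ^ s = 1 - (1 / 2) ^ m := by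
      intro m
      induction m with
      | zero => simp
      | succ m ih =>
        rw [Finset.sum_Icc_succ_top (by omega), ih, pow_succ]
        ring
    rw [h4]
    have : (0 : ℝ) ≤ (1 / 2) ^ n := by positivity
    linarith
  calc 1 / n * ∑ s ∈ Finset.Icc 1 n, (1 / 2 : ℝ) ^ s ≤ 1 / n * 1 :=
        mul_le_mul_of_nonneg_left h3 (by positivity)
    _ = 1 / n := mul_one _

end Pool.Agent.Helper15.RG
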