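import Mathlib
import Pool.Agent.Helper15.RG.Moment
import Pool.Agent.Helper15.LP.Main

set_option autoImplicit false

/-!
MP_2f9829_co, random graphs: the dense part of the theorem, from the binomial estimates `ST_B` and
the deterministic theorem `lp_GapP`.
-/

namespace Pool.Agent.Helper15.RG

open Finset
open scoped Classical

/-- `G` satisfies the list edge-colouring conjecture with value `Δ(G)`. -/
def LEC (n : ℕ) (G : SimpleGraph (Fin n)) : Prop :=
  ∀ k : ℕ, (G.lineGraph.Colorable k ↔ ∀ L : G.edgeSet → Finset ℕ, (∀ e, k ≤ (L e).card) →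
      ∃ f : G.edgeSet → ℕ, (∀ e, f e ∈ L e) ∧ ∀ e e', G.lineGraph.Adj e e' → f e ≠ f e') ∧
    (G.lineGraph.Colorable k ↔ ∀ v, Set.ncard (G.neighborSet v) ≤ k)

/-- The binomial estimates. -/
def ST_B : Prop := ∀ (C ε : ℝ), 0 < ε → ∃ n₀ : ℕ, ∀ n : ℕ, n₀ ≤ n → ∀ p : ℝ, 0 < p → p < 1 →
  Real.log n ^ 12 / 4 ≤ n * p * (1 - p) → ∃ t : ℕ, 1 ≤ t ∧ 2 * Real.log n ^ 5 ≤ t ∧
    1 / ε ≤ n * BT (n - 1) t p ∧
    n * BT (n - 1) (t - ⌊C * Real.log n ^ 5⌋₊) p ≤ ε * Real.log n ^ 5 ∧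
    bt (n - 2) (t - 1) p ≤ ε * BT (n - 1) t p

theorem degree_eq {n : ℕ} (G : SimpleGraph (Fin n)) [DecidableRel G.Adj] (v : Fin n) :
    G.degree v = dg G v := by
  unfold dg
  rw [← SimpleGraph.card_neighborSet_eq_degree, Set.ncard_eq_toFinset_card', Set.toFinset_card]

theorem maxDegree_le_iff {n : ℕ} (G : SimpleGraph (Fin n)) [DecidableRel G.Adj] (k : ℕ) :
    G.maxDegree ≤ k ↔ ∀ v, Set.ncard (G.neighborSet v) ≤ k := by
  constructor
  · intro h v
    have := (G.degree_le_maxDegree v).trans h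
    rw [degree_eq] at this
    exact this
  · intro h
    apply G.maxDegree_le_of_forall_degree_le
    intro v
    rw [degree_eq]
    exact h v

/-- The deterministic step. -/
theorem good_event (C : ℝ) (hC : ∀ (V : Type) [Fintype V] [DecidableEq V] (G : SimpleGraph V)
      [DecidableRel G.Adj] (h : ℕ), 2 ≤ Fintype.card V → 2 * h ≤ G.maxDegree →
      (∀ v, ((G.neighborFinset v).filter (fun u => (G.maxDegree : ℝ) - 2 * h -
        C * Real.log (Fintype.card V) ^ 5 < (G.degree u : ℝ))).card ≤ h) →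
      ∀ k : ℕ, (G.lineGraph.Colorable k ↔ ∀ L : G.edgeSet → Finset ℕ, (∀ e, k ≤ (L e).card) →
          ∃ f : G.edgeSet → ℕ, (∀ e, f e ∈ L e) ∧
            ∀ e e', G.lineGraph.Adj e e' → f e ≠ f e') ∧
        (G.lineGraph.Colorable k ↔ G.maxDegree ≤ k))
    (n t : ℕ) (hn : 2 ≤ n) (ht : 2 * Real.log n ^ 5 ≤ t) (G : SimpleGraph (Fin n))
    (h1 : Z t G ≠ 0)
    (h2 : (Z (t - ⌊(2 + |C|) * Real.log n ^ 5⌋₊) G : ℝ) ≤ Real.log n ^ 5) : LEC n G := by
  have hL : 0 ≤ Real.log n ^ 5 := pow_nonneg (Real.log_natCast_nonneg n) 5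
  set h := ⌊Real.log n ^ 5⌋₊ with hh
  have hh1 : (h : ℝ) ≤ Real.log n ^ 5 := Nat.floor_le hL
  -- the maximum degree
  have hZ : ∃ v, t ≤ dg G v := by
    unfold Z at h1
    rw [Finset.card_ne_zero] at h1
    obtain ⟨v, hv⟩ := h1
    exact ⟨v, (Finset.mem_filter.mp hv).2⟩
  obtain ⟨v0, hv0⟩ := hZ
  have hΔ : t ≤ G.maxDegree := by
    rw [← degree_eq] at hv0
    exact hv0.trans (G.degree_le_maxDegree v0)
  have hΔr : (t : ℝ) ≤ (G.maxDegree : ℝ) := by exact_mod_cast hΔ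
  have h2h : 2 * h ≤ G.maxDegree := by
    have : (2 * h : ℝ) ≤ (G.maxDegree : ℝ) := by linarith
    exact_mod_cast this
  have hcard : Fintype.card (Fin n) = n := Fintype.card_fin n
  have hloc : ∀ v, ((G.neighborFinset v).filter (fun u => (G.maxDegree : ℝ) - 2 * h -
        C * Real.log (Fintype.card (Fin n)) ^ 5 < (G.degree u : ℝ))).card ≤ h := by
    intro v
    have hsub : ((G.neighborFinset v).filter (fun u => (G.maxDegree : ℝ) - 2 * h -
        C * Real.log (Fintype.card (Fin n)) ^ 5 < (G.degree u : ℝ))) ⊆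
        univ.filter (fun u : Fin n => t - ⌊(2 + |C|) * Real.log n ^ 5⌋₊ ≤ dg G u) := by
      intro u hu
      rw [Finset.mem_filter] at hu
      rw [Finset.mem_filter]
      refine ⟨Finset.mem_univ u, ?_⟩
      have h3 := hu.2
      rw [hcard, degree_eq] at h3
      have h4 : C * Real.log n ^ 5 ≤ |C| * Real.log n ^ 5 :=
        mul_le_mul_of_nonneg_right (le_abs_self C) hL
      have h5 : (t : ℝ) < dg G u + (2 + |C|) * Real.log n ^ 5 := by nlinarith
      have h6 : (2 + |C|) * Real.log n ^ 5 < ⌊(2 + |C|) * Real.log n ^ 5⌋₊ + 1 :=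
        Nat.lt_floor_add_one _
      have h7 : (t : ℝ) < dg G u + (⌊(2 + |C|) * Real.log n ^ 5⌋₊ + 1) := by linarith
      have h8 : t < dg G u + (⌊(2 + |C|) * Real.log n ^ 5⌋₊ + 1) := by exact_mod_cast h7
      omega
    have h9 := Finset.card_le_card hsub
    have h10 : (Z (t - ⌊(2 + |C|) * Real.log n ^ 5⌋₊) G) ≤ h := Nat.le_floor h2
    unfold Z at h10
    exact h9.trans h10
  intro k
  have h3 := hC (Fin n) G h (by rw [hcard]; exact hn) h2h hloc k
  exact ⟨h3.1, h3.2.trans (maxDegree_le_iff G k)⟩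

theorem ind_bound {n : ℕ} (p : ℝ) (hp0 : 0 ≤ p) (hp1 : p ≤ 1) (A B D : SimpleGraph (Fin n) → Prop)
    [DecidablePred A] [DecidablePred B] [DecidablePred D] (h : ∀ G, ¬ B G → ¬ D G → A G) (x y : ℝ)
    (hB : exG n p (fun G => if B G then 1 else 0) ≤ x)
    (hD : exG n p (fun G => if D G then 1 else 0) ≤ y) :
    1 - (x + y) ≤ exG n p (fun G => if A G then 1 else 0) := by
  have h1 : exG n p (fun _ => 1) ≤ exG n p (fun G => (if A G then 1 else 0) +
      ((if B G then 1 else 0) + (if D G then 1 else 0))) := by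
    apply exG_mono n p hp0 hp1
    intro G
    by_cases hb : B G
    · simp only [hb, if_true]
      have : (0 : ℝ) ≤ (if A G then 1 else 0) := by split_ifs <;> norm_num
      have : (0 : ℝ) ≤ (if D G then 1 else 0) := by split_ifs <;> norm_num
      linarith
    · by_cases hd : D G
      · simp only [hd, if_true]
        have : (0 : ℝ) ≤ (if A G then 1 else 0) := by split_ifs <;> norm_num
        have : (0 : ℝ) ≤ (if B G then 1 else 0) := by split_ifs <;> norm_num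
        linarith
      · have ha := h G hb hd
        simp [ha, hb, hd]
  rw [exG_one, exG_add, exG_add] at h1
  linarith

theorem dense (hB : ST_B) (ε : ℝ) (hε : 0 < ε) : ∃ n₀ : ℕ, ∀ n : ℕ, n₀ ≤ n → ∀ p : ℝ, 0 < p →
    p < 1 → Real.log n ^ 12 / 4 ≤ n * p * (1 - p) →
    1 - ε ≤ exG n p (fun G => if LEC n G then 1 else 0) := by
  obtain ⟨C, hC⟩ := Pool.Agent.Helper15.LP.lp_GapP
  have hδ : 0 < min (ε / 3) 1 := lt_min (by linarith) one_pos
  obtain ⟨n₀, h0⟩ := hB (2 + |C|) (min (ε / 3) 1) hδ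
  refine ⟨max n₀ 3, ?_⟩
  intro n hn p hp0 hp1 hnp
  have hn0 : n₀ ≤ n := (le_max_left _ _).trans hn
  have hn3 : 3 ≤ n := (le_max_right _ _).trans hn
  have hL : 0 < Real.log n ^ 5 := by
    apply pow_pos
    apply Real.log_pos
    exact_mod_cast (by omega : 1 < n)
  obtain ⟨t, ht1, ht2, ht3, ht4, ht5⟩ := h0 n hn0 p hp0 hp1 hnp
  have h1 := cheb n t p (min (ε / 3) 1) hp0.le hp1.le (by omega) ht1 hδ (min_le_right _ _) ht3 ht5
  have h2 := markov n (t - ⌊(2 + |C|) * Real.log n ^ 5⌋₊) p (min (ε / 3) 1) (Real.log n ^ 5)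
    hp0.le hp1.le hL ht4
  have h3 := ind_bound p hp0.le hp1.le (LEC n) (fun G => Z t G = 0)
    (fun G => Real.log n ^ 5 < (Z (t - ⌊(2 + |C|) * Real.log n ^ 5⌋₊) G : ℝ))
    (fun G hb hd => good_event C hC n t (by omega) ht2 G hb (not_lt.mp hd)) _ _ h1 h2
  have h4 : min (ε / 3) 1 ≤ ε / 3 := min_le_left _ _
  linarith

end Pool.Agent.Helper15.RG
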