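import Mathlib
import Pool.Agent.Helper15.RG.Degen
import Pool.Agent.Helper15.RG.Dense
import Pool.Agent.Helper21.LQ.All

set_option autoImplicit false

/-!
MP_2f9829_co, random graphs: the sparse part `n p ≤ c₀ log n`.
-/

namespace Pool.Agent.Helper15.RG

open Finset
open scoped Classical

/-- Chebyshev, second form. -/
theorem cheb2 (n t : ℕ) (p ε : ℝ) (hp0 : 0 ≤ p) (hp1 : p ≤ 1) (hn : 2 ≤ n) (ht : 1 ≤ t)
    (hε : 0 < ε) (h1 : 1 / ε ≤ n * BT (n - 1) t p)
    (h2 : p * (1 - p) * bt (n - 2) (t - 1) p ^ 2 ≤ ε * BT (n - 1) t p ^ 2) :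
    exG n p (fun G => if Z t G = 0 then 1 else 0) ≤ 2 * ε := by
  set T := BT (n - 1) t p with hT
  set β := bt (n - 2) (t - 1) p with hβ
  have hn0 : (0 : ℝ) < n := by exact_mod_cast (by omega : 0 < n)
  have hnT : 0 < n * T := lt_of_lt_of_le (by positivity) h1
  have hE : exG n p (fun G => ((Z t G : ℝ) - n * T) ^ 2) ≤
      n * T + n ^ 2 * (p * (1 - p) * β ^ 2) := by
    have h3 : (fun G : SimpleGraph (Fin n) => ((Z t G : ℝ) - n * T) ^ 2) =
        fun G => (Z t G : ℝ) ^ 2 + ((-(2 * (n * T))) * (Z t G : ℝ) + (n * T) ^ 2 * 1) := by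
      funext G
      ring
    rw [h3, exG_add, exG_add, exG_smul, exG_smul, exG_one, moment1, moment2 n t p hn ht, ← hT, ← hβ]
    have hpq0 : 0 ≤ p * (1 - p) := mul_nonneg hp0 (by linarith)
    have h6 : 0 ≤ p * (1 - p) * β ^ 2 := mul_nonneg hpq0 (sq_nonneg β)
    have h7 : (n : ℝ) * (n - 1) * (T ^ 2 + p * (1 - p) * β ^ 2) ≤
        (n : ℝ) * n * (T ^ 2 + p * (1 - p) * β ^ 2) := by
      apply mul_le_mul_of_nonneg_right _ (by positivity)
      nlinarith
    nlinarith
  have hM : (n * T) ^ 2 * exG n p (fun G => if Z t G = 0 then 1 else 0) ≤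
      exG n p (fun G => ((Z t G : ℝ) - n * T) ^ 2) := by
    rw [← exG_smul]
    apply exG_mono n p hp0 hp1
    intro G
    split_ifs with hc
    · rw [hc]
      simp
    · rw [mul_zero]
      exact sq_nonneg _
  have h10 : n * T ≤ ε * (n * T) ^ 2 := by
    have : 1 ≤ ε * (n * T) := by
      rw [div_le_iff₀ hε] at h1
      linarith
    nlinarith
  have h11 : (n : ℝ) ^ 2 * (p * (1 - p) * β ^ 2) ≤ ε * (n * T) ^ 2 := by
    calc (n : ℝ) ^ 2 * (p * (1 - p) * β ^ 2) ≤ (n : ℝ) ^ 2 * (ε * T ^ 2) :=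
          mul_le_mul_of_nonneg_left h2 (sq_nonneg _)
      _ = ε * (n * T) ^ 2 := by ring
  have h13 : (n * T) ^ 2 * exG n p (fun G => if Z t G = 0 then 1 else 0) ≤
      (n * T) ^ 2 * (2 * ε) := by linarith
  exact le_of_mul_le_mul_left h13 (by positivity)

/-- The deterministic step, sparse case. -/
theorem good_sparse (n r : ℕ) (G : SimpleGraph (Fin n)) (hr : 1 ≤ r) (h1 : ¬ Bad n r G)
    (h2 : Z (4 * 10 ^ 24 * r) G ≠ 0) : LEC n G := by
  have hZ : ∃ v, 4 * 10 ^ 24 * r ≤ dg G v := by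
    unfold Z at h2
    rw [Finset.card_ne_zero] at h2
    obtain ⟨v, hv⟩ := h2
    exact ⟨v, (Finset.mem_filter.mp hv).2⟩
  obtain ⟨v0, hv0⟩ := hZ
  have hΔ : 4 * 10 ^ 24 * r ≤ G.maxDegree := by
    rw [← degree_eq] at hv0
    exact hv0.trans (G.degree_le_maxDegree v0)
  intro k
  have h3 := Pool.Agent.Helper21.LQ.layered Pool.Agent.Helper21.LQ.all_CHAIN
    Pool.Agent.Helper21.LQ.st_GAL Pool.Agent.Helper21.LQ.st_TOP (Fin n) G ?_ k
  · exact ⟨h3.1, h3.2.trans (maxDegree_le_iff G k)⟩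
  intro H _ hH _
  refine ⟨1, fun _ => 0, one_pos, le_rfl, ?_, ?_, ?_, ?_⟩
  · rintro ⟨r, hr⟩
    exact absurd rfl hr
  · intro t r _ h
    exact absurd h (lt_irrefl _)
  · intro r h
    exact absurd h (lt_irrefl _)
  · right
    right
    refine ⟨2 * r - 1, Or.inl ?_, ?_⟩
    · omega
    · intro W hW _
      unfold Bad at h1
      push Not at h1
      obtain ⟨v, hv, hv2⟩ := h1 W hW
      refine ⟨v, hv, ?_⟩
      have h4 : (W.filter (fun w => H.Adj v w)).card ≤ (W.filter (fun w => G.Adj v w)).card := by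
        apply Finset.card_le_card
        intro w hw
        rw [Finset.mem_filter] at hw ⊢
        exact ⟨hw.1, hH hw.2⟩
      have h5 : (W.filter (H.Adj v)).card = (W.filter (fun w => H.Adj v w)).card := by
        congr 1
      omega

/-- The deterministic step, forests. -/
theorem good_forest (n : ℕ) (G : SimpleGraph (Fin n)) (h1 : ¬ Bad n 1 G) : LEC n G := by
  intro k
  have h3 := Pool.Agent.Helper21.LQ.layered Pool.Agent.Helper21.LQ.all_CHAIN
    Pool.Agent.Helper21.LQ.st_GAL Pool.Agent.Helper21.LQ.st_TOP (Fin n) G ?_ k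
  · exact ⟨h3.1, h3.2.trans (maxDegree_le_iff G k)⟩
  intro H _ hH hdeg
  refine ⟨1, fun _ => 0, one_pos, le_rfl, ?_, ?_, ?_, ?_⟩
  · rintro ⟨r, hr⟩
    exact absurd rfl hr
  · intro t r _ h
    exact absurd h (lt_irrefl _)
  · intro r h
    exact absurd h (lt_irrefl _)
  · right
    left
    refine ⟨fun _ => true, ?_⟩
    intro x y hxy _ _
    exfalso
    -- the support of `H`
    set W : Finset (Fin n) := univ.filter (fun v => 1 ≤ H.degree v) with hW
    have hx : x ∈ W := by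
      rw [hW, Finset.mem_filter]
      refine ⟨Finset.mem_univ x, ?_⟩
      rw [Nat.succ_le_iff, SimpleGraph.degree_pos_iff_exists_adj]
      exact ⟨y, hxy⟩
    unfold Bad at h1
    push Not at h1
    obtain ⟨v, hv, hv2⟩ := h1 W ⟨x, hx⟩
    have hdv : H.degree v ≤ 1 := by
      have h4 : H.neighborFinset v ⊆ W.filter (fun w => G.Adj v w) := by
        intro w hw
        rw [SimpleGraph.mem_neighborFinset] at hw
        rw [Finset.mem_filter, hW, Finset.mem_filter]
        refine ⟨⟨Finset.mem_univ w, ?_⟩, hH hw⟩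
        rw [Nat.succ_le_iff, SimpleGraph.degree_pos_iff_exists_adj]
        exact ⟨v, hw.symm⟩
      have h5 := Finset.card_le_card h4
      rw [SimpleGraph.card_neighborFinset_eq_degree] at h5
      omega
    rw [hW, Finset.mem_filter, Nat.succ_le_iff, SimpleGraph.degree_pos_iff_exists_adj] at hv
    obtain ⟨w, hw⟩ := hv.2
    have h6 := hdeg v w hw
    have h7 : H.degree w ≤ G.degree w := SimpleGraph.degree_le_of_le hH
    have h8 := G.degree_le_maxDegree w
    omega

end Pool.Agent.Helper15.RG
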