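import Mathlib
import Pool.Agent.Helper15.RG.Moment

set_option autoImplicit false

/-!
MP_2f9829_co, random graphs: the numerical part of the sparse case.
-/

namespace Pool.Agent.Helper15.RG

open Finset Filter

theorem BT_ge (N t : ℕ) (p : ℝ) (hp0 : 0 ≤ p) (hp1 : p ≤ 1) (ht : t ≤ N) :
    bt N t p ≤ BT N t p := by
  unfold BT
  exact Finset.single_le_sum (f := fun k => bt N k p) (fun k _ => bt_nonneg N k p hp0 hp1)
    (Finset.mem_filter.mpr ⟨Finset.mem_range.mpr (by omega), le_rfl⟩)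

theorem pow_lower (p : ℝ) (hp0 : 0 ≤ p) (hp1 : p ≤ 1 / 2) (n : ℕ) :
    Real.exp (-(2 * (n * p))) ≤ (1 - p) ^ n := by
  have h1 : Real.exp (-(2 * p)) ≤ 1 - p := by
    have h2 : 2 * p + 1 ≤ Real.exp (2 * p) := Real.add_one_le_exp _
    have h3 : 0 < Real.exp (2 * p) := Real.exp_pos _
    rw [Real.exp_neg, inv_le_comm₀ h3 (by linarith)]
    refine le_trans ?_ h2
    rw [inv_le_iff_one_le_mul₀ (by linarith)]
    nlinarith
  calc Real.exp (-(2 * (n * p))) = Real.exp (-(2 * p)) ^ n := by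
        rw [← Real.exp_nat_mul]; congr 1; ring
    _ ≤ (1 - p) ^ n := pow_le_pow_left₀ (Real.exp_pos _).le h1 n

/-- Lower bound for a binomial weight. -/
theorem bt_lower (n t : ℕ) (p : ℝ) (hp0 : 0 < p) (hp1 : p ≤ 1 / 2) (ht : 1 ≤ t) (htn : 2 * t ≤ n) :
    Real.exp (-(t * Real.log (2 * t / (n * p)) + 2 * (n * p))) ≤ bt (n - 1) t p := by
  have hn0 : (0 : ℝ) < n := by exact_mod_cast (by omega : 0 < n)
  have ht0 : (0 : ℝ) < t := by exact_mod_cast ht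
  have h1 : ((n - 1 + 1 - t : ℕ) : ℝ) ^ t / (t.factorial : ℝ) ≤ ((n - 1).choose t : ℝ) :=
    Nat.pow_le_choose t (n - 1)
  have h2 : (t.factorial : ℝ) ≤ (t : ℝ) ^ t := by exact_mod_cast Nat.factorial_le_pow t
  have hf : (0 : ℝ) < (t.factorial : ℝ) := by exact_mod_cast Nat.factorial_pos t
  have h3 : (n : ℝ) / 2 ≤ ((n - 1 + 1 - t : ℕ) : ℝ) := by
    have : n ≤ 2 * (n - 1 + 1 - t) := by omega
    have h4 : (n : ℝ) ≤ 2 * ((n - 1 + 1 - t : ℕ) : ℝ) := by exact_mod_cast this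
    linarith
  have h4 : ((n : ℝ) / (2 * t)) ^ t ≤ ((n - 1).choose t : ℝ) := by
    refine le_trans ?_ h1
    rw [show (n : ℝ) / (2 * t) = (n / 2) / t by field_simp, div_pow]
    apply div_le_div₀ (by positivity) (pow_le_pow_left₀ (by positivity) h3 t) hf h2
  have h5 : (1 - p) ^ n ≤ (1 - p) ^ (n - 1 - t) :=
    pow_le_pow_of_le_one (by linarith) (by linarith) (by omega)
  have h6 := (pow_lower p hp0.le hp1 n).trans h5
  have h7 : Real.exp (-(t * Real.log (2 * t / (n * p)))) = (n * p / (2 * t)) ^ t := by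
    have h8 : Real.log (2 * t / (n * p)) = -Real.log (n * p / (2 * t)) := by
      rw [← Real.log_inv, inv_div]
    rw [h8, mul_neg, neg_neg, Real.exp_nat_mul, Real.exp_log (by positivity)]
  rw [neg_add, Real.exp_add, h7]
  unfold bt
  have h9 : (n * p / (2 * t)) ^ t = ((n : ℝ) / (2 * t)) ^ t * p ^ t := by
    rw [← mul_pow]; congr 1; ring
  rw [h9]
  apply mul_le_mul _ h6 (Real.exp_pos _).le (by positivity)
  exact mul_le_mul_of_nonneg_right h4 (by positivity)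

/-- Comparison of two binomial weights. -/
theorem bt_comp (n t : ℕ) (p : ℝ) (ht : 1 ≤ t) (htn : t + 1 ≤ n) :
    bt (n - 2) (t - 1) p * ((n - 1 : ℕ) * p) = t * bt (n - 1) t p := by
  obtain ⟨s, rfl⟩ : ∃ s, t = s + 1 := ⟨t - 1, by omega⟩
  obtain ⟨m, rfl⟩ : ∃ m, n = m + 2 := ⟨n - 2, by omega⟩
  unfold bt
  have h1 : m + 2 - 2 = m := by omega
  have h2 : m + 2 - 1 = m + 1 := by omega
  have h3 : s + 1 - 1 = s := by omega
  have h4 : m + 1 - (s + 1) = m - s := by omega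
  rw [h1, h2, h3, h4]
  have h5 : ((m + 1 : ℕ) : ℝ) * (m.choose s : ℝ) = ((m + 1).choose (s + 1) : ℝ) * ((s + 1 : ℕ) : ℝ) := by
    exact_mod_cast Nat.add_one_mul_choose_eq m s
  rw [pow_succ]
  calc (m.choose s : ℝ) * p ^ s * (1 - p) ^ (m - s) * (((m + 1 : ℕ) : ℝ) * p)
      = (((m + 1 : ℕ) : ℝ) * (m.choose s : ℝ)) * (p ^ s * p * (1 - p) ^ (m - s)) := by ring
    _ = _ := by rw [h5]; ring

theorem beta_le (n t : ℕ) (p ε : ℝ) (hp0 : 0 < p) (hp1 : p ≤ 1) (ht : 1 ≤ t) (htn : 2 * t ≤ n)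
    (h : 4 * (t : ℝ) ^ 2 ≤ ε * (n * (n * p))) :
    p * (1 - p) * bt (n - 2) (t - 1) p ^ 2 ≤ ε * BT (n - 1) t p ^ 2 := by
  have hn0 : (0 : ℝ) < n := by exact_mod_cast (by omega : 0 < n)
  have h1 := bt_comp n t p ht (by omega)
  have h2 := BT_ge (n - 1) t p hp0.le hp1 (by omega)
  have h3 := bt_nonneg (n - 1) t p hp0.le hp1
  have h4 := bt_nonneg (n - 2) (t - 1) p hp0.le hp1
  set β := bt (n - 2) (t - 1) p with hβ
  set b := bt (n - 1) t p with hb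
  set T := BT (n - 1) t p with hT
  have hn1 : (n : ℝ) / 2 ≤ ((n - 1 : ℕ) : ℝ) := by
    have : n ≤ 2 * (n - 1) := by omega
    have h5 : (n : ℝ) ≤ 2 * ((n - 1 : ℕ) : ℝ) := by exact_mod_cast this
    linarith
  have h5 : β * (n * p) ≤ 2 * (t * T) := by
    have h6 : β * ((n : ℝ) / 2 * p) ≤ β * (((n - 1 : ℕ) : ℝ) * p) :=
      mul_le_mul_of_nonneg_left (mul_le_mul_of_nonneg_right hn1 hp0.le) h4
    have h7 : (t : ℝ) * b ≤ t * T := mul_le_mul_of_nonneg_left h2 (Nat.cast_nonneg t)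
    linarith
  have h6 : (β * (n * p)) ^ 2 ≤ (2 * (t * T)) ^ 2 := pow_le_pow_left₀ (by positivity) h5 2
  have h7 : p * (1 - p) * β ^ 2 ≤ p * β ^ 2 := by nlinarith [mul_nonneg hp0.le (sq_nonneg β)]
  refine h7.trans ?_
  have h8 : (n * (n * p)) * (p * β ^ 2) ≤ (n * (n * p)) * (ε * T ^ 2) := by
    calc (n * (n * p)) * (p * β ^ 2) = (β * (n * p)) ^ 2 := by ring
      _ ≤ (2 * (t * T)) ^ 2 := h6
      _ = (4 * (t : ℝ) ^ 2) * T ^ 2 := by ring
      _ ≤ (ε * (n * (n * p))) * T ^ 2 := mul_le_mul_of_nonneg_right h (sq_nonneg T)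
      _ = (n * (n * p)) * (ε * T ^ 2) := by ring
  exact le_of_mul_le_mul_left h8 (by positivity)

end Pool.Agent.Helper15.RG
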