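import Mathlib
import Pool.Agent.Helper15.RG.Sparse
import Pool.Agent.Helper15.RG.SparseNum

set_option autoImplicit false

/-!
MP_2f9829_co, random graphs: the sparse part `n p ≤ c₀ log n`.
-/

namespace Pool.Agent.Helper15.RG

open Finset Filter
open scoped Classical

theorem tends_log : Tendsto (fun n : ℕ => Real.log n) atTop atTop :=
  Real.tendsto_log_atTop.comp tendsto_natCast_atTop_atTop

theorem ev_pow (k : ℕ) (A : ℝ) (hA : 0 < A) : ∀ᶠ n : ℕ in atTop, A * Real.log n ^ k ≤ n := by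
  have h1 : (fun x : ℝ => Real.log x ^ k) =o[atTop] id := Real.isLittleO_pow_log_id_atTop
  have h2 := (h1.def (c := 1 / A) (by positivity))
  have h3 := tendsto_natCast_atTop_atTop (R := ℝ) |>.eventually h2
  filter_upwards [h3] with n hn
  simp only [id, Real.norm_eq_abs, Nat.abs_cast] at hn
  have h4 : Real.log n ^ k ≤ 1 / A * n := (le_abs_self _).trans hn
  calc A * Real.log n ^ k ≤ A * (1 / A * n) := mul_le_mul_of_nonneg_left h4 hA.le
    _ = n := by field_simp

theorem ev_loglog (A B : ℝ) (hA : 0 < A) (hB : 0 < B) :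
    ∀ᶠ n : ℕ in atTop, A * Real.log (B * Real.log n) ≤ Real.log n := by
  have h1 : (fun x : ℝ => Real.log x) =o[atTop] id := Real.isLittleO_log_id_atTop
  have h2 := (h1.def (c := 1 / (A * B)) (by positivity))
  have h3 : Tendsto (fun n : ℕ => B * Real.log n) atTop atTop :=
    Tendsto.const_mul_atTop hB tends_log
  filter_upwards [h3.eventually h2, tends_log.eventually_ge_atTop 0] with n hn hn0
  simp only [id, Real.norm_eq_abs] at hn
  rw [abs_of_nonneg (by positivity : 0 ≤ B * Real.log n)] at hn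
  have h4 : Real.log (B * Real.log n) ≤ 1 / (A * B) * (B * Real.log n) := (le_abs_self _).trans hn
  calc A * Real.log (B * Real.log n) ≤ A * (1 / (A * B) * (B * Real.log n)) :=
        mul_le_mul_of_nonneg_left h4 hA.le
    _ = Real.log n := by field_simp

/-- The constant. -/
noncomputable def cK (K : ℕ) : ℝ := 1 / (2 * (15 * K * Real.log (30 * K) + 2))

theorem logK (K : ℕ) (hK : 1 ≤ K) : 0 ≤ Real.log (30 * K) := by
  apply Real.log_nonneg
  have : (1 : ℝ) ≤ K := by exact_mod_cast hK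
  linarith

theorem cK_pos (K : ℕ) (hK : 1 ≤ K) : 0 < cK K := by
  unfold cK
  have := logK K hK
  positivity

theorem cK_le (K : ℕ) (hK : 1 ≤ K) : cK K ≤ 1 := by
  unfold cK
  have h1 := logK K hK
  have h2 : (1 : ℝ) ≤ K := by exact_mod_cast hK
  have h3 : 0 ≤ 15 * (K : ℝ) * Real.log (30 * K) := by positivity
  rw [div_le_one (by positivity)]
  linarith

theorem exponent_le (K : ℕ) (hK : 1 ≤ K) (x : ℝ) (t : ℝ) (L : ℝ) (hL : 8 ≤ L)
    (hx0 : 0 < x) (hx1 : 1 ≤ x * L) (hx2 : x ≤ cK K * L) (ht0 : 0 ≤ t)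
    (ht : t ≤ K * (12 * x + 3)) (ht2 : 0 < t)
    (hLL : (4 * (15 * K)) * Real.log (30 * K * L) ≤ L) :
    t * Real.log (2 * t / x) + 2 * x ≤ L / 2 := by
  have hlog0 : 0 ≤ Real.log (30 * K) := logK K hK
  have hK1 : (1 : ℝ) ≤ K := by exact_mod_cast hK
  have hK0 : (0 : ℝ) < K := by linarith
  by_cases hc : 1 ≤ x
  · have h1 : t ≤ 15 * K * x := by nlinarith
    have h2 : 2 * t / x ≤ 30 * K := by
      rw [div_le_iff₀ hx0]
      linarith
    have h3 : Real.log (2 * t / x) ≤ Real.log (30 * K) :=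
      Real.log_le_log (by positivity) h2
    set A := Real.log (30 * (K : ℝ)) with hA
    have h4 : t * Real.log (2 * t / x) ≤ 15 * K * x * A :=
      (mul_le_mul_of_nonneg_left h3 ht0).trans (mul_le_mul_of_nonneg_right h1 hlog0)
    have h5 : (15 * K * A + 2) * x ≤ (15 * K * A + 2) * (cK K * L) :=
      mul_le_mul_of_nonneg_left hx2 (by positivity)
    have h6 : (15 * K * A + 2) * (cK K * L) = L / 2 := by
      unfold cK
      rw [← hA]
      have : (15 * K * A + 2 : ℝ) ≠ 0 := by positivity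
      field_simp
    linarith
  · push Not at hc
    have h1 : t ≤ 15 * K := by nlinarith
    have h2 : 2 * t / x ≤ 30 * K * L := by
      rw [div_le_iff₀ hx0]
      have h8 : 30 * (K : ℝ) * 1 ≤ 30 * K * (x * L) :=
        mul_le_mul_of_nonneg_left hx1 (by positivity)
      linarith
    have h3 : Real.log (2 * t / x) ≤ Real.log (30 * K * L) :=
      Real.log_le_log (by positivity) h2
    have h7 : 0 ≤ Real.log (30 * K * L) := by
      apply Real.log_nonneg
      nlinarith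
    set A := Real.log (30 * (K : ℝ) * L) with hA
    have h4 : t * Real.log (2 * t / x) ≤ 15 * K * A :=
      (mul_le_mul_of_nonneg_left h3 ht0).trans (mul_le_mul_of_nonneg_right h1 h7)
    linarith

theorem sparse_mid (K : ℕ) (hKK : K = 4 * 10 ^ 24) (ε : ℝ) (hε : 0 < ε) :
    ∃ n₀ : ℕ, ∀ n : ℕ, n₀ ≤ n → ∀ p : ℝ, 0 < p → p ≤ 1 →
    1 ≤ (n * p) * Real.log n → n * p ≤ cK K * Real.log n →
    1 - ε ≤ exG n p (fun G => if LEC n G then 1 else 0) := by
  have hK : 1 ≤ K := by rw [hKK]; norm_num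
  have hgood : ∀ (n r : ℕ) (G : SimpleGraph (Fin n)), 1 ≤ r → ¬ Bad n r G → Z (K * r) G ≠ 0 →
      LEC n G := by
    intro n r G h1 h2 h3
    rw [hKK] at h3
    exact good_sparse n r G h1 h2 h3
  clear hKK
  have hK1 : (1 : ℝ) ≤ K := by exact_mod_cast hK
  have hK0 : (0 : ℝ) < K := by linarith
  have hδ : 0 < ε / 3 := by linarith
  have e1 : ∀ᶠ n : ℕ in atTop, 8 ≤ Real.log n := tends_log.eventually_ge_atTop 8
  have e2 := ev_loglog (4 * (15 * K)) (30 * K) (by positivity) (by positivity)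
  have e3 := ev_pow 3 (3600 * K ^ 2 / (ε / 3)) (by positivity)
  have e4 := ev_pow 1 (60 * K) (by positivity)
  have e5 : ∀ᶠ n : ℕ in atTop, (9 / ε ^ 2 + 3 / ε : ℝ) ≤ n :=
    tendsto_natCast_atTop_atTop.eventually_ge_atTop _
  obtain ⟨n₀, h0⟩ := eventually_atTop.mp (e1.and (e2.and (e3.and (e4.and e5))))
  refine ⟨n₀, ?_⟩
  intro n hn p hp0 hp1 hnp1 hnp2
  obtain ⟨a1, a2, a3, a4, a5⟩ := h0 n hn
  set L := Real.log n with hLdef
  have hL0 : 0 < L := by linarith
  have hn0 : (0 : ℝ) < n := by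
    have : (0 : ℝ) < 9 / ε ^ 2 + 3 / ε := by positivity
    linarith
  have hn1 : 1 ≤ n := by
    have : 0 < n := by exact_mod_cast hn0
    omega
  have hnp0 : 0 < n * p := by positivity
  set r := ⌈12 * (n * p)⌉₊ + 2 with hr
  have hr1 : (12 * (n * p)) + 2 ≤ (r : ℝ) := by
    rw [hr]; push_cast
    linarith [Nat.le_ceil (12 * (n * p))]
  have hr2 : (r : ℝ) ≤ 12 * (n * p) + 3 := by
    rw [hr]; push_cast
    linarith [Nat.ceil_lt_add_one (by positivity : 0 ≤ 12 * (n * p))]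
  set t := K * r with ht
  have htr : (t : ℝ) = K * (r : ℝ) := by rw [ht]; push_cast; ring
  have ht1 : (t : ℝ) ≤ K * (12 * (n * p) + 3) := by
    rw [htr]
    exact mul_le_mul_of_nonneg_left hr2 hK0.le
  have ht0 : 1 ≤ t := Nat.mul_pos hK (by omega)
  have ht0r : (0 : ℝ) < t := by exact_mod_cast ht0
  have hx3 : n * p ≤ L := by
    have h1 := mul_le_mul_of_nonneg_right (cK_le K hK) hL0.le
    linarith
  have ht2 : (t : ℝ) ≤ 15 * K * L := by
    refine ht1.trans ?_
    have h1 : 12 * (n * p) + 3 ≤ 15 * L := by linarith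
    have h2 := mul_le_mul_of_nonneg_left h1 hK0.le
    linarith
  rw [pow_one] at a4
  have htn : 2 * t ≤ n := by
    have h1 : (2 * t : ℝ) ≤ n := by
      have : 0 < K * L := by positivity
      linarith
    exact_mod_cast h1
  have hp2 : p ≤ 1 / 2 := by
    have h0 : L ≤ K * L := by nlinarith
    have h1 : n * p ≤ n * (1 / 2) := by linarith
    exact le_of_mul_le_mul_left h1 hn0
  have hexp := exponent_le K hK (n * p) t L a1 hnp0 hnp1 hnp2 ht0r.le ht1 ht0r a2
  have hb := bt_lower n t p hp0 hp2 ht0 htn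
  have hT := BT_ge (n - 1) t p hp0.le hp1 (by omega)
  have hexpL : Real.exp L = n := Real.exp_log hn0
  have hmean : 1 / (ε / 3) ≤ n * BT (n - 1) t p := by
    have h1 : Real.exp (-(L / 2)) ≤ BT (n - 1) t p :=
      (Real.exp_le_exp.mpr (by linarith)).trans (hb.trans hT)
    have h2 : n * Real.exp (-(L / 2)) ≤ n * BT (n - 1) t p := mul_le_mul_of_nonneg_left h1 hn0.le
    have h3 : n * Real.exp (-(L / 2)) = Real.exp (L / 2) := by
      calc n * Real.exp (-(L / 2)) = Real.exp L * Real.exp (-(L / 2)) := by rw [hexpL]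
        _ = Real.exp (L / 2) := by rw [← Real.exp_add]; congr 1; ring
    have h4 : (Real.exp (L / 2)) ^ 2 = n := by
      calc (Real.exp (L / 2)) ^ 2 = Real.exp L := by
            rw [← Real.exp_nat_mul]; congr 1; push_cast; ring
        _ = n := hexpL
    have h5 : (1 / (ε / 3)) ^ 2 ≤ (Real.exp (L / 2)) ^ 2 := by
      rw [h4]
      have h6 : (1 / (ε / 3)) ^ 2 = 9 / ε ^ 2 := by field_simp; norm_num
      have h7 : 0 < 3 / ε := by positivity
      linarith
    have h6 := abs_le_of_sq_le_sq' h5 (Real.exp_pos _).le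
    linarith [h6.2]
  have hbeta := beta_le n t p (ε / 3) hp0 hp1 ht0 htn (by
    have h1 : (t : ℝ) ^ 2 ≤ (15 * K * L) ^ 2 := pow_le_pow_left₀ ht0r.le ht2 2
    have h2 : 3600 * (K : ℝ) ^ 2 * L ^ 3 ≤ ε / 3 * n := by
      have h3 : 3600 * (K : ℝ) ^ 2 / (ε / 3) * L ^ 3 * (ε / 3) ≤ n * (ε / 3) :=
        mul_le_mul_of_nonneg_right a3 hδ.le
      have h4 : 3600 * (K : ℝ) ^ 2 / (ε / 3) * L ^ 3 * (ε / 3) =
          3600 * (K : ℝ) ^ 2 * L ^ 3 := by field_simp
      linarith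
    have h5 : (ε / 3 * n) ≤ (ε / 3 * n) * ((n * p) * L) := by
      nlinarith [mul_pos hδ hn0]
    have h6 : L * (4 * (t : ℝ) ^ 2) ≤ L * (ε / 3 * (n * (n * p))) := by
      calc L * (4 * (t : ℝ) ^ 2) ≤ L * (4 * (15 * K * L) ^ 2) := by
            apply mul_le_mul_of_nonneg_left _ hL0.le
            linarith
        _ = 900 * (K : ℝ) ^ 2 * L ^ 3 := by ring
        _ ≤ 3600 * (K : ℝ) ^ 2 * L ^ 3 := by
            have : 0 < (K : ℝ) ^ 2 * L ^ 3 := by positivity
            linarith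
        _ ≤ ε / 3 * n := h2
        _ ≤ (ε / 3 * n) * ((n * p) * L) := h5
        _ = L * (ε / 3 * (n * (n * p))) := by ring
    exact le_of_mul_le_mul_left h6 hL0)
  have hch := cheb2 n t p (ε / 3) hp0.le hp1 (by omega) ht0 hδ hmean hbeta
  have hbad := bad_two n r p hp0.le hp1 hn1 (by omega) (by linarith)
  have hbad2 : (1 : ℝ) / n ≤ ε / 3 := by
    rw [div_le_iff₀ hn0]
    have h1 : ε / 3 * (9 / ε ^ 2 + 3 / ε) ≤ ε / 3 * n := mul_le_mul_of_nonneg_left a5 hδ.le
    have h2 : ε / 3 * (9 / ε ^ 2 + 3 / ε) = 3 / ε + 1 := by field_simp; ring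
    have h3 : 0 < 3 / ε := by positivity
    linarith
  have h3 := ind_bound p hp0.le hp1 (LEC n) (fun G => Z t G = 0) (fun G => Bad n r G)
    (fun G hz hd => hgood n r G (by omega) hd hz) _ _ hch (hbad.trans hbad2)
  linarith

theorem sparse_low (ε : ℝ) (hε : 0 < ε) : ∃ n₀ : ℕ, ∀ n : ℕ, n₀ ≤ n → ∀ p : ℝ, 0 ≤ p → p ≤ 1 →
    (n * p) * Real.log n ≤ 1 → 1 - ε ≤ exG n p (fun G => if LEC n G then 1 else 0) := by
  have e1 : ∀ᶠ n : ℕ in atTop, 8 + 16 / ε ≤ Real.log n := tends_log.eventually_ge_atTop _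
  obtain ⟨n₀, h0⟩ := eventually_atTop.mp e1
  refine ⟨n₀, ?_⟩
  intro n hn p hp0 hp1 hnp
  have hL := h0 n hn
  have hx : 0 < 16 / ε := by positivity
  have hnp0 : 0 ≤ n * p := by positivity
  have h1 : n * p ≤ 1 / 8 := by nlinarith
  have h2 : 8 * (n * p) ≤ ε / 2 := by
    have h3 : (n * p) * (16 / ε) ≤ 1 := by nlinarith
    have h4 : (n * p) * (16 / ε) = (8 * (n * p)) * (2 / ε) := by ring
    rw [h4] at h3
    have h5 : (8 * (n * p)) * (2 / ε) * (ε / 2) ≤ 1 * (ε / 2) :=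
      mul_le_mul_of_nonneg_right h3 (by linarith)
    have h6 : (8 * (n * p)) * (2 / ε) * (ε / 2) = 8 * (n * p) := by field_simp
    linarith
  have hbad := bad_one n p hp0 hp1 h1
  have h3 := ind_bound p hp0 hp1 (LEC n) (fun G => Bad n 1 G) (fun G => Bad n 1 G)
    (fun G hz _ => good_forest n G hz) _ _ (hbad.trans h2) (hbad.trans h2)
  linarith

/-- The sparse part. -/
theorem sparse (K : ℕ) (hK : K = 4 * 10 ^ 24) (ε : ℝ) (hε : 0 < ε) :
    ∃ n₀ : ℕ, ∀ n : ℕ, n₀ ≤ n → ∀ p : ℝ, 0 ≤ p → p ≤ 1 →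
    n * p ≤ cK K * Real.log n → 1 - ε ≤ exG n p (fun G => if LEC n G then 1 else 0) := by
  obtain ⟨n₁, h1⟩ := sparse_mid K hK ε hε
  obtain ⟨n₂, h2⟩ := sparse_low ε hε
  refine ⟨max n₁ n₂, ?_⟩
  intro n hn p hp0 hp1 hnp
  by_cases hc : (n * p) * Real.log n ≤ 1
  · exact h2 n ((le_max_right _ _).trans hn) p hp0 hp1 hc
  · push Not at hc
    have hp : 0 < p := by
      rcases hp0.lt_or_eq with h | h
      · exact h
      · exfalso
        rw [← h, mul_zero, zero_mul] at hc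
        linarith
    exact h1 n ((le_max_left _ _).trans hn) p hp hp1 hc.le hnp

end Pool.Agent.Helper15.RG
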