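import Mathlib
import Pool.Agent.Helper15.RG.SparseFin
import Pool.Agent.Helper32.AAG.Bp

set_option autoImplicit false

/-!
MP_2f9829_co, random graphs: assembly.
-/

namespace Pool.Agent.Helper15.RG

open Finset Filter
open scoped Classical

theorem T_eq (N t : ℕ) (p : ℝ) : Pool.Agent.Helper32.AAG.T N p t = BT N t p := by
  unfold Pool.Agent.Helper32.AAG.T BT
  have h1 : Finset.Ico t (N + 1) = (range (N + 1)).filter (fun k => t ≤ k) := by
    ext k
    simp only [Finset.mem_Ico, Finset.mem_filter, Finset.mem_range]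
    tauto
  rw [h1]
  rfl

theorem st_B : ST_B := by
  intro C ε hε
  obtain ⟨n₀, h0⟩ := Pool.Agent.Helper32.AAG.st_B4 C ε hε
  refine ⟨n₀, ?_⟩
  intro n hn p hp0 hp1 hnp
  obtain ⟨t, h1, _, h3, h4, h5, h6⟩ := h0 n hn p hp0 hp1 hnp
  rw [T_eq] at h3 h4 h5
  exact ⟨t, h1, by linarith, h3, h4, h5⟩

/-- The random graph theorem, with a window. -/
theorem rg_window : ∃ c : ℝ, 0 < c ∧ ∀ ε : ℝ, 0 < ε → ∃ n₀ : ℕ, ∀ n : ℕ, n₀ ≤ n →
    ∀ p : ℝ, 0 ≤ p → p ≤ 1 → (n * p ≤ c * Real.log n ∨ Real.log n ^ 12 ≤ n * p * (1 - p)) →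
    1 - ε ≤ exG n p (fun G => if LEC n G then 1 else 0) := by
  refine ⟨cK (4 * 10 ^ 24), cK_pos _ (by norm_num), ?_⟩
  intro ε hε
  obtain ⟨n₁, h1⟩ := sparse (4 * 10 ^ 24) rfl ε hε
  obtain ⟨n₂, h2⟩ := dense st_B ε hε
  refine ⟨max (max n₁ n₂) 3, ?_⟩
  intro n hn p hp0 hp1 hnp
  have hn1 : n₁ ≤ n := (le_max_left _ _).trans ((le_max_left _ _).trans hn)
  have hn2 : n₂ ≤ n := (le_max_right _ _).trans ((le_max_left _ _).trans hn)
  have hn3 : 3 ≤ n := (le_max_right _ _).trans hn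
  rcases hnp with h | h
  · exact h1 n hn1 p hp0 hp1 h
  · have hL : 0 < Real.log n ^ 12 := by
      apply pow_pos
      apply Real.log_pos
      exact_mod_cast (by omega : 1 < n)
    have hp : 0 < p := by
      rcases hp0.lt_or_eq with h3 | h3
      · exact h3
      · exfalso
        rw [← h3] at h
        simp only [mul_zero, zero_mul] at h
        linarith
    have hq : p < 1 := by
      rcases hp1.lt_or_eq with h3 | h3
      · exact h3
      · exfalso
        rw [h3] at h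
        simp only [sub_self, mul_zero] at h
        linarith
    exact h2 n hn2 p hp hq (by linarith)

/-- Expectation of an indicator as a sum. -/
theorem exG_ind (n : ℕ) (p : ℝ) (A : Set (SimpleGraph (Fin n))) :
    exG n p (fun G => if G ∈ A then 1 else 0) =
      ∑ G : SimpleGraph (Fin n), A.indicator
        (fun G => p ^ (Set.ncard G.edgeSet) * (1 - p) ^ (n.choose 2 - Set.ncard G.edgeSet)) G := by
  unfold exG
  apply Finset.sum_congr rfl
  intro G _
  by_cases h : G ∈ A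
  · simp only [if_pos h, Set.indicator_of_mem h, mul_one]
  · simp only [if_neg h, Set.indicator_of_notMem h, mul_zero]

theorem ncard_edge_le (n : ℕ) (G : SimpleGraph (Fin n)) : Set.ncard G.edgeSet ≤ n.choose 2 := by
  rw [← card_EE, ← Set.ncard_coe_finset]
  apply Set.ncard_le_ncard _ (Finset.finite_toSet _)
  intro e he
  rw [Finset.mem_coe, mem_EE]
  exact SimpleGraph.not_isDiag_of_mem_edgeSet G he

/-- The case `p = 1/2`: counting. -/
theorem exG_half (n : ℕ) (A : Set (SimpleGraph (Fin n))) :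
    exG n (1 / 2) (fun G => if G ∈ A then 1 else 0) * Set.ncard (Set.univ : Set (SimpleGraph (Fin n)))
      = Set.ncard A := by
  have h1 : ∀ f : SimpleGraph (Fin n) → ℝ, exG n (1 / 2) f =
      (1 / 2) ^ (n.choose 2) * ∑ G : SimpleGraph (Fin n), f G := by
    intro f
    unfold exG
    rw [Finset.mul_sum]
    apply Finset.sum_congr rfl
    intro G _
    have h2 : (1 - 1 / 2 : ℝ) = 1 / 2 := by norm_num
    rw [h2, ← pow_add, Nat.add_sub_cancel' (ncard_edge_le n G)]
  have h2 := exG_one n (1 / 2)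
  rw [h1] at h2 ⊢
  have h3 : ∑ G : SimpleGraph (Fin n), (1 : ℝ) =
      Set.ncard (Set.univ : Set (SimpleGraph (Fin n))) := by
    rw [Set.ncard_univ, Nat.card_eq_fintype_card, Finset.sum_const, Finset.card_univ,
      nsmul_eq_mul, mul_one]
  have h4 : ∑ G : SimpleGraph (Fin n), (if G ∈ A then (1 : ℝ) else 0) = Set.ncard A := by
    rw [Finset.sum_boole, Set.ncard_eq_toFinset_card']
    congr 2
    ext G
    simp
  rw [h3] at h2
  rw [h4]
  calc (1 / 2 : ℝ) ^ (n.choose 2) * (Set.ncard A : ℝ) *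
        (Set.ncard (Set.univ : Set (SimpleGraph (Fin n))) : ℝ) =
      ((1 / 2 : ℝ) ^ (n.choose 2) * (Set.ncard (Set.univ : Set (SimpleGraph (Fin n))) : ℝ)) *
        (Set.ncard A : ℝ) := by ring
    _ = Set.ncard A := by rw [h2, one_mul]

/-- Almost all graphs. -/
theorem almost_all (ε : ℝ) (hε : 0 < ε) : ∃ n₀ : ℕ, ∀ n : ℕ, n₀ ≤ n →
    (1 - ε) * (Set.ncard (Set.univ : Set (SimpleGraph (Fin n))) : ℝ) ≤
      (Set.ncard {G : SimpleGraph (Fin n) | LEC n G} : ℝ) := by
  obtain ⟨c, _, h⟩ := rg_window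
  obtain ⟨n₀, h0⟩ := h ε hε
  have e1 := eventually_atTop.mp (ev_pow 12 4 (by norm_num))
  obtain ⟨n₁, h1⟩ := e1
  refine ⟨max n₀ n₁, ?_⟩
  intro n hn
  have h2 := h0 n ((le_max_left _ _).trans hn) (1 / 2) (by norm_num) (by norm_num)
    (Or.inr (by have := h1 n ((le_max_right _ _).trans hn); linarith))
  have h3 := exG_half n {G : SimpleGraph (Fin n) | LEC n G}
  rw [← h3]
  apply mul_le_mul_of_nonneg_right _ (Nat.cast_nonneg _)
  exact h2

end Pool.Agent.Helper15.RG
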