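import Mathlib
import Pool.Agent.Helper15.RG.Main
import Pool.Agent.Helper32.AAG.Win

set_option autoImplicit false

/-!
MP_2f9829_co, random graphs: the theorem for all `p` with `n (1 - p) ≥ (log n)^12`.
-/

namespace Pool.Agent.Helper15.RG

open Finset Filter
open scoped Classical

theorem lecg_iff {n : ℕ} (G : SimpleGraph (Fin n)) :
    Pool.Agent.Helper32.AAG.LECG G ↔ LEC n G := Iff.rfl

/-- The random graph theorem. -/
theorem rg_all (hG : Pool.Agent.Helper46.NB.ST_GAPL) (ε : ℝ) (hε : 0 < ε) :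
    ∃ n₀ : ℕ, ∀ n : ℕ, n₀ ≤ n → ∀ p : ℝ, 0 ≤ p → p ≤ 1 → Real.log n ^ 12 ≤ n * (1 - p) →
    1 - ε ≤ exG n p (fun G => if LEC n G then 1 else 0) := by
  obtain ⟨n₁, h1⟩ := sparse (4 * 10 ^ 24) rfl ε hε
  obtain ⟨n₂, h2⟩ := dense st_B ε hε
  obtain ⟨n₃, h3⟩ := Pool.Agent.Helper32.AAG.WIN hG (cK (4 * 10 ^ 24)) (cK_pos _ (by norm_num)) ε hε
  obtain ⟨n₄, h4⟩ := eventually_atTop.mp (tends_log.eventually_ge_atTop 1)
  refine ⟨max (max n₁ n₂) (max n₃ (max n₄ 3)), ?_⟩
  intro n hn p hp0 hp1 hnp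
  have hn1 : n₁ ≤ n := (le_max_left _ _).trans ((le_max_left _ _).trans hn)
  have hn2 : n₂ ≤ n := (le_max_right _ _).trans ((le_max_left _ _).trans hn)
  have hn3 : n₃ ≤ n := (le_max_left _ _).trans ((le_max_right _ _).trans hn)
  have hn4 : n₄ ≤ n :=
    (le_max_left _ _).trans ((le_max_right _ _).trans ((le_max_right _ _).trans hn))
  have hn5 : 3 ≤ n :=
    (le_max_right _ _).trans ((le_max_right _ _).trans ((le_max_right _ _).trans hn))
  have hL := h4 n hn4
  have hn0 : (0 : ℝ) < n := by exact_mod_cast (by omega : 0 < n)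
  have hL12 : 0 < Real.log n ^ 12 := by positivity
  have hL13 : Real.log n ^ 12 ≤ Real.log n ^ 13 := pow_le_pow_right₀ hL (by norm_num)
  rcases le_total (n * p) (cK (4 * 10 ^ 24) * Real.log n) with h | h
  · exact h1 n hn1 p hp0 hp1 h
  rcases le_total (n * p) (Real.log n ^ 13) with h' | h'
  · exact h3 n hn3 p hp0 h h'
  have hp : 0 < p := by
    rcases hp0.lt_or_eq with h5 | h5
    · exact h5
    · exfalso
      rw [← h5, mul_zero] at h'
      linarith
  have hq : p < 1 := by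
    rcases hp1.lt_or_eq with h5 | h5
    · exact h5
    · exfalso
      rw [h5, sub_self, mul_zero] at hnp
      linarith
  apply h2 n hn2 p hp hq
  rcases le_total p (1 / 4) with h5 | h5
  · have h6 : n * p * (3 / 4) ≤ n * p * (1 - p) :=
      mul_le_mul_of_nonneg_left (by linarith) (by positivity)
    linarith
  · have h6 : (n * (1 - p)) * (1 / 4) ≤ (n * (1 - p)) * p :=
      mul_le_mul_of_nonneg_left h5 (by
        apply mul_nonneg hn0.le
        linarith)
    have h7 : n * p * (1 - p) = (n * (1 - p)) * p := by ring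
    rw [h7]
    linarith

end Pool.Agent.Helper15.RG
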